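import Pool.Agent.MMSChk.Defs

/-!
# The real functions of a certificate and the integrand
-/

set_option autoImplicit false

namespace Pool.Agent.MMSChk

/-- the value number `k` of a packed list with 24 bits per value -/
def dg (x k : ℕ) : ℤ := ((Nat.mod (Nat.shiftRight x (24 * k)) b24 : ℕ) : ℤ) - o23

/-- the values of `psi` at the integers -/
def psN (C : Cert) (m : ℤ) : ℤ := dg C.ps (max 0 (min (m + C.U) (2 * C.U))).toNat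

/-- the value of the cell `m`, with the values `lo` and `hi` outside -/
def cellF (U x lo hi : ℕ) (m : ℤ) : ℤ :=
  if m < -U then (lo : ℤ) - o23 else if m < U then dg x (m + U).toNat else (hi : ℤ) - o23

def pcN (C : Cert) (m : ℤ) : ℤ := cellF C.U C.pc o23 o23 m

def hlN (C : Cert) (m : ℤ) : ℤ := cellF C.U C.hl C.hm C.hp m

def hrN (C : Cert) (m : ℤ) : ℤ := cellF C.U C.hr C.hm C.hp m

def s3N (C : Cert) (m : ℤ) : ℤ := cellF C.U C.s3 o23 o23 m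

/-- the row of the cell `i` -/
def rowN (C : Cert) (i : ℤ) : ARow :=
  C.rows.getD (i + C.A).toNat
    ⟨⟨0, 0⟩, ⟨0, 0⟩, ⟨0, 0⟩, ⟨0, 0⟩, ⟨0, 0⟩, ⟨0, 0⟩, ⟨0, 0⟩, ⟨0, 0⟩, 0, 0, 0, 0, 0, 0⟩

def GN (C : Cert) (i m : ℤ) : ℤ := cellF C.U (rowN C i).G o23 o23 m

def GaN (C : Cert) (i m : ℤ) : ℤ := cellF C.U (rowN C i).Ga o23 o23 m

def GsN (C : Cert) (i m : ℤ) : ℤ := cellF C.U (rowN C i).Gs o23 o23 m

def HN (C : Cert) (i m : ℤ) : ℤ := cellF C.U (rowN C i).H o23 o23 m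

def HaN (C : Cert) (i m : ℤ) : ℤ := cellF C.U (rowN C i).Ha o23 o23 m

def HsN (C : Cert) (i m : ℤ) : ℤ := cellF C.U (rowN C i).Hs o23 o23 m

/-- is the cell `i` adjacent to `0`? -/
def adjN (i : ℤ) : Prop := i = 0 ∨ i = -1

instance (i : ℤ) : Decidable (adjN i) := by unfold adjN; infer_instance

/-! ### real functions -/

noncomputable def psiR (C : Cert) (u : ℝ) : ℝ :=
  psN C ⌊u⌋ * (1 - Int.fract u) + psN C (⌊u⌋ + 1) * Int.fract u +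
    pcN C ⌊u⌋ * (Int.fract u * (1 - Int.fract u))

noncomputable def hhR (C : Cert) (u : ℝ) : ℝ :=
  hlN C ⌊u⌋ * (1 - Int.fract u) + hrN C ⌊u⌋ * Int.fract u

noncomputable def s3R (C : Cert) (u : ℝ) : ℝ := s3N C ⌊u⌋

/-- the indicator of `[0, ∞)` -/
noncomputable def oneR (u : ℝ) : ℝ := if 0 ≤ u then 1 else 0

noncomputable def mR (C : Cert) (a : ℝ) : ℝ :=
  a ^ 2 * ((rowN C ⌊a⌋).M0.v * (1 - Int.fract a) + (rowN C ⌊a⌋).M1.v * Int.fract a)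

noncomputable def lamR (C : Cert) (a : ℝ) : ℝ :=
  a ^ 2 * ((rowN C ⌊a⌋).L0.v * (1 - Int.fract a) + (rowN C ⌊a⌋).L1.v * Int.fract a)

noncomputable def mu1R (C : Cert) (a : ℝ) : ℝ :=
  (rowN C ⌊a⌋).mu1.v * (if adjN ⌊a⌋ then a ^ 2 else 1)

noncomputable def mu2R (C : Cert) (a : ℝ) : ℝ :=
  if adjN ⌊a⌋ then 0 else ((rowN C ⌊a⌋).mu2.v : ℝ)

noncomputable def phi1R (C : Cert) (a : ℝ) : ℝ :=
  (rowN C ⌊a⌋).f1.v * (if adjN ⌊a⌋ then a else 1)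

noncomputable def phi2R (C : Cert) (a : ℝ) : ℝ :=
  if adjN ⌊a⌋ then 0 else ((rowN C ⌊a⌋).f2.v : ℝ)

noncomputable def gR (C : Cert) (a u : ℝ) : ℝ :=
  (GN C ⌊a⌋ ⌊u⌋ + GaN C ⌊a⌋ ⌊u⌋ * Int.fract a + GsN C ⌊a⌋ ⌊u⌋ * Int.fract u) *
    (if adjN ⌊a⌋ then a else 1)

noncomputable def hR (C : Cert) (a v : ℝ) : ℝ :=
  (HN C ⌊a⌋ ⌊v⌋ + HaN C ⌊a⌋ ⌊v⌋ * Int.fract a + HsN C ⌊a⌋ ⌊v⌋ * Int.fract v) *
    (if adjN ⌊a⌋ then a else 1)

/-- real parameters -/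
structure RPar where
  te : ℝ
  tpq : ℝ
  tee : ℝ
  tp : ℝ
  tq : ℝ
  tt : ℝ
  tl : ℝ
  tgp : ℝ
  tgn : ℝ
  t1 : ℝ
  t2 : ℝ
  t3 : ℝ
  t4 : ℝ
  t5 : ℝ

noncomputable def Par.toR (p : Par) : RPar :=
  ⟨p.te.v, p.tpq.v, p.tee.v, p.tp.v, p.tq.v, p.tt.v, p.tl.v, p.tgp.v, p.tgn.v, p.t1.v, p.t2.v,
    p.t3.v, p.t4.v, p.t5.v⟩

/-- the terms of one role: `a` is the variable of the multipliers, `u = y + a`, `v = y + b` -/
noncomputable def KhR (C : Cert) (p : RPar) (a b y : ℝ) : ℝ :=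
  p.te * ((y + a) * psiR C (y + a)) - p.tpq * ((a - b) * psiR C (y + a)) +
  (p.tpq * (a * b) + p.tee * (y + a) ^ 2) * s3R C (y + a) +
  (p.te * (C.A : ℝ) ^ 2 - p.tp * a ^ 2 - p.tq * b ^ 2) * hhR C (y + a) +
  mR C a * (p.tp * oneR (y + a) + p.tq * oneR (y + b) - p.tt) +
  lamR C a * (p.tl * oneR (y + a) - (if 0 ≤ a then p.tgp else p.tgn)) +
  mu1R C a * (p.t1 * y + p.t2 * a) +
  mu2R C a * (p.t3 * y ^ 2 - p.t4 * ((C.A : ℝ) ^ 2 - a ^ 2) - p.t5 * a ^ 2) +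
  phi1R C a * (p.t1 * b + p.te * a) +
  phi2R C a * (p.t1 * b ^ 2 - p.te * ((C.A : ℝ) ^ 2 - a ^ 2)) +
  gR C a (y + a) * (p.tq * b + p.te * (y + a)) +
  hR C a (y + b) * (p.tp * b - p.te * (y + b))

/-- the symmetrised integrand -/
noncomputable def KsR (C : Cert) (p : RPar) (a b y : ℝ) : ℝ := KhR C p a b y + KhR C p b a y

end Pool.Agent.MMSChk
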