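import Pool.Agent.MMSChk.Cell

/-!
# The integrand on a cell is the polynomial
-/

set_option autoImplicit false

namespace Pool.Agent.MMSChk

/-! ### evaluation of the code over the integers -/

theorem evalP_padd (p q : P20 ℤ) (x y z : ℝ) :
    evalP (padd intOps p q) x y z = evalP p x y z + evalP q x y z := by
  simp only [evalP, padd, intOps]
  push_cast
  ring

theorem evalP_swapXY (p : P20 ℤ) (x y z : ℝ) : evalP (swapXY p) x y z = evalP p y x z := by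
  simp only [evalP, swapXY]
  ring

theorem evalP_swapYZ (p : P20 ℤ) (x y z : ℝ) : evalP (swapYZ p) x y z = evalP p x z y := by
  simp only [evalP, swapYZ]
  ring

theorem evalP_psub (p : P20 ℤ) (x y z : ℝ) :
    evalP (psub intOps p) x y z = evalP p x y (x - z) := by
  simp only [evalP, psub, intOps]
  push_cast
  ring

/-- the windows of `G`, `H` with the products by `e` -/
structure GDok (e : ℤ) (g : GD ℤ) : Prop where
  e0 : g.e0 = e * g.g0
  ea : g.ea = e * g.ga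
  es : g.es = e * g.gs

/-- the windows of the functions of `u` with the products by `e` -/
structure WDok (e : ℤ) (w : WD ℤ) : Prop where
  ep : w.ep = e * w.p0
  eD : w.eD = e * w.D
  eC : w.eC = e * w.C
  e1 : w.e1 = e * w.s3
  e2 : w.e2 = e ^ 2 * w.s3

theorem gpart_eval {e : ℤ} {g : GD ℤ} (hg : GDok e g) (p q j : Z) (x y z : ℝ) :
    evalP (gpart intOps p q j g) x y z =
      (p.v * (j.v + y) + q.v * (e + z)) * (g.g0 + g.ga * x + g.gs * z) := by
  simp only [evalP, gpart, intOps, hg.e0, hg.ea, hg.es, Z.v_mul]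
  push_cast
  ring

theorem mulx_eval {e : ℤ} {g : GD ℤ} (hg : GDok e g) (i p q j : Z) (x y z : ℝ) :
    evalP (mulx intOps i (gpart intOps p q j g)) x y z =
      (i.v + x) * ((p.v * (j.v + y) + q.v * (e + z)) * (g.g0 + g.ga * x + g.gs * z)) := by
  simp only [evalP, mulx, gpart, intOps, hg.e0, hg.ea, hg.es, Z.v_mul]
  push_cast
  ring

theorem upart_eval {e : ℤ} {w : WD ℤ} (hw : WDok e w) (p : Par) (Q i j : Z) (r s : ARow)
    (x y z : ℝ) :
    evalP (upart intOps p Q i j r s w) x y z =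
      p.te.v * ((e + z) * (w.p0 + w.D * z - w.C * z ^ 2)) -
      p.tpq.v * (((i.v + x) - (j.v + y)) * (w.p0 + w.D * z - w.C * z ^ 2)) +
      (p.tpq.v * ((i.v + x) * (j.v + y)) + p.tee.v * (e + z) ^ 2) * w.s3 +
      (p.te.v * Q.v - p.tp.v * (i.v + x) ^ 2 - p.tq.v * (j.v + y) ^ 2) * (w.h0 + w.h1 * z) +
      ((i.v + x) ^ 2 * (r.M0.v * (1 - x) + r.M1.v * x) * p.tp.v +
        (i.v + x) ^ 2 * (r.L0.v * (1 - x) + r.L1.v * x) * p.tl.v +
        (j.v + y) ^ 2 * (s.M0.v * (1 - y) + s.M1.v * y) * p.tq.v) * w.w1 := by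
  simp only [evalP, upart, intOps, hw.ep, hw.eD, hw.eC, hw.e1, hw.e2, Z.v_mul, Z.v_add, Z.v_sub,
    Z.v_neg, Z.v_dbl]
  push_cast
  ring

theorem ufull_eval {e : ℤ} {w : WD ℤ} {g h : GD ℤ} (hw : WDok e w) (hg : GDok e g)
    (hh : GDok e h) (p : Par) (Q i j : Z) (I J : Bool) (r s : ARow) (x y z : ℝ) :
    evalP (ufull intOps p Q i j I J r s w g h) x y z =
      p.te.v * ((e + z) * (w.p0 + w.D * z - w.C * z ^ 2)) -
      p.tpq.v * (((i.v + x) - (j.v + y)) * (w.p0 + w.D * z - w.C * z ^ 2)) +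
      (p.tpq.v * ((i.v + x) * (j.v + y)) + p.tee.v * (e + z) ^ 2) * w.s3 +
      (p.te.v * Q.v - p.tp.v * (i.v + x) ^ 2 - p.tq.v * (j.v + y) ^ 2) * (w.h0 + w.h1 * z) +
      ((i.v + x) ^ 2 * (r.M0.v * (1 - x) + r.M1.v * x) * p.tp.v +
        (i.v + x) ^ 2 * (r.L0.v * (1 - x) + r.L1.v * x) * p.tl.v +
        (j.v + y) ^ 2 * (s.M0.v * (1 - y) + s.M1.v * y) * p.tq.v) * w.w1 +
      (g.g0 + g.ga * x + g.gs * z) * (if I then (i.v + x : ℝ) else 1) *
        (p.tq.v * (j.v + y) + p.te.v * (e + z)) +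
      (h.g0 + h.ga * y + h.gs * z) * (if J then (j.v + y : ℝ) else 1) *
        (p.tp.v * (i.v + x) - p.te.v * (e + z)) := by
  unfold ufull
  rw [evalP_padd, evalP_padd, evalP_swapXY, upart_eval hw]
  cases I <;> cases J <;>
    simp only [cond_true, cond_false, gpart_eval hg, gpart_eval hh, mulx_eval hg, mulx_eval hh,
      Z.v_neg, if_true, if_false, Bool.false_eq_true] <;> push_cast <;> ring

/-- the value of the terms without functions of `u`, `v`, for the role `a` -/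
noncomputable def rval (p : Par) (Q : Z) (tg : Z) (I : Bool) (R : ARow) (a b y al : ℝ) : ℝ :=
  -(a ^ 2 * (R.M0.v * (1 - al) + R.M1.v * al) * p.tt.v) -
    a ^ 2 * (R.L0.v * (1 - al) + R.L1.v * al) * tg.v +
  R.mu1.v * (if I then a ^ 2 else 1) * (p.t1.v * y + p.t2.v * a) +
  (if I then 0 else (R.mu2.v : ℝ)) * (p.t3.v * y ^ 2 - p.t4.v * (Q.v - a ^ 2) - p.t5.v * a ^ 2) +
  R.f1.v * (if I then a else 1) * (p.t1.v * b + p.te.v * a) +
  (if I then 0 else (R.f2.v : ℝ)) * (p.t1.v * b ^ 2 - p.te.v * (Q.v - a ^ 2))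

theorem rasm_eval (p : Par) (Q i j tg tg' : Z) (I J : Bool) (R S : ARow) (cc : ℤ) (x y z : ℝ) :
    evalP (rasm intOps ⟨1, cc, cc ^ 2⟩ (rpart p Q i j tg I R) (rpart p Q j i tg' J S)) x y z =
      rval p Q tg I R (i.v + x) (j.v + y) (cc - z) x +
      rval p Q tg' J S (j.v + y) (i.v + x) (cc - z) y := by
  have h3 : (⟨3, 0⟩ : Z).v = 3 := by simp [Z.v]
  cases I <;> cases J <;>
    simp only [evalP, rasm, rpart, rval, intOps, cond_true, cond_false, Z.v_mul, Z.v_add,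
      Z.v_sub, Z.v_neg, Z.v_dbl, Z.v_zero, h3, if_true, if_false, Bool.false_eq_true] <;>
    push_cast <;> ring

/-! ### the real functions on a cell -/

theorem floor_u {a y : ℝ} {t : Bool} (ht : t = true ↔ Int.fract a < ⌈y⌉ - y) :
    ⌊y + a⌋ = (if t then ⌊a⌋ + ⌈y⌉ - 1 else ⌊a⌋ + ⌈y⌉) ∧
    Int.fract (y + a) = (if t then 1 + (Int.fract a - (⌈y⌉ - y)) else Int.fract a - (⌈y⌉ - y)) := by
  have h1 := Int.fract_nonneg a
  have h2 := Int.fract_lt_one a
  have h3 := Int.le_ceil y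
  have h4 := Int.ceil_lt_add_one y
  have h5 := Int.floor_add_fract a
  have key : ⌊y + a⌋ = (if t then ⌊a⌋ + ⌈y⌉ - 1 else ⌊a⌋ + ⌈y⌉) := by
    rw [Int.floor_eq_iff]
    cases t with
    | true =>
      have h := ht.1 rfl
      simp only [if_true]
      push_cast
      constructor <;> linarith
    | false =>
      have h : ¬ Int.fract a < ⌈y⌉ - y := fun h => by simpa using ht.2 h
      simp only [Bool.false_eq_true, if_false]
      push_cast
      constructor <;> linarith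
  refine ⟨key, ?_⟩
  have e : Int.fract (y + a) = y + a - (⌊y + a⌋ : ℤ) := rfl
  rw [e, key]
  cases t with
  | true =>
    simp only [if_true]
    push_cast
    linarith
  | false =>
    simp only [Bool.false_eq_true, if_false]
    push_cast
    linarith

theorem eN_eq {C : Cert} {a y : ℝ} {ii c : ℕ} (ha : (ii : ℤ) = ⌊a⌋ + C.A)
    (hc : (c : ℤ) = ⌈y⌉ + (C.U + C.A)) : eN C ii c = ⌊a⌋ + ⌈y⌉ := by
  unfold eN
  rw [ha, hc]
  ring

theorem mN_eq {C : Cert} {a y : ℝ} {ii c : ℕ} {t : Bool} (ha : (ii : ℤ) = ⌊a⌋ + C.A)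
    (hc : (c : ℤ) = ⌈y⌉ + (C.U + C.A)) (ht : t = true ↔ Int.fract a < ⌈y⌉ - y) :
    ⌊y + a⌋ = mN C ii c t := by
  unfold mN
  rw [eN_eq ha hc, (floor_u ht).1]

section cell

variable {C : Cert} {a y : ℝ} {ii c : ℕ} {t : Bool} (ha : (ii : ℤ) = ⌊a⌋ + C.A)
  (hc : (c : ℤ) = ⌈y⌉ + (C.U + C.A)) (ht : t = true ↔ Int.fract a < ⌈y⌉ - y)

include ha hc ht

theorem psiR_cell : psiR C (y + a) = (wdZ C ii t c).p0 +
    (wdZ C ii t c).D * (Int.fract a - (⌈y⌉ - y)) -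
    (wdZ C ii t c).C * (Int.fract a - (⌈y⌉ - y)) ^ 2 := by
  unfold psiR
  rw [mN_eq ha hc ht, (floor_u ht).2]
  cases t with
  | true =>
    have e : mN C ii c true + 1 = eN C ii c := by simp [mN]
    simp only [wdZ, if_true, e]
    push_cast
    ring
  | false =>
    have e : mN C ii c false = eN C ii c := by simp [mN]
    simp only [wdZ, Bool.false_eq_true, if_false, e]
    push_cast
    ring

theorem hhR_cell : hhR C (y + a) = (wdZ C ii t c).h0 +
    (wdZ C ii t c).h1 * (Int.fract a - (⌈y⌉ - y)) := by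
  unfold hhR
  rw [mN_eq ha hc ht, (floor_u ht).2]
  cases t with
  | true =>
    simp only [wdZ, if_true]
    push_cast
    ring
  | false =>
    simp only [wdZ, Bool.false_eq_true, if_false]
    push_cast
    ring

theorem s3R_cell : s3R C (y + a) = (wdZ C ii t c).s3 := by
  unfold s3R
  rw [mN_eq ha hc ht]
  rfl

theorem oneR_cell : oneR (y + a) = (wdZ C ii t c).w1 := by
  unfold oneR
  have h : (0 ≤ y + a) ↔ 0 ≤ mN C ii c t := by
    rw [← mN_eq ha hc ht, Int.floor_nonneg]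
  simp only [wdZ, h]
  split_ifs <;> simp

theorem gR_cell : gR C a (y + a) =
    ((gdZ C (rowN C ⌊a⌋).G (rowN C ⌊a⌋).Ga (rowN C ⌊a⌋).Gs ii t c).g0 +
      (gdZ C (rowN C ⌊a⌋).G (rowN C ⌊a⌋).Ga (rowN C ⌊a⌋).Gs ii t c).ga * Int.fract a +
      (gdZ C (rowN C ⌊a⌋).G (rowN C ⌊a⌋).Ga (rowN C ⌊a⌋).Gs ii t c).gs *
        (Int.fract a - (⌈y⌉ - y))) * (if adjN ⌊a⌋ then a else 1) := by
  unfold gR
  rw [mN_eq ha hc ht, (floor_u ht).2]
  congr 1
  cases t with
  | true =>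
    simp only [gdZ, GN, GaN, GsN, if_true]
    push_cast
    ring
  | false =>
    simp only [gdZ, GN, GaN, GsN, Bool.false_eq_true, if_false]

theorem hR_cell (b : ℝ) : hR C b (y + a) =
    ((gdZ C (rowN C ⌊b⌋).H (rowN C ⌊b⌋).Ha (rowN C ⌊b⌋).Hs ii t c).g0 +
      (gdZ C (rowN C ⌊b⌋).H (rowN C ⌊b⌋).Ha (rowN C ⌊b⌋).Hs ii t c).ga * Int.fract b +
      (gdZ C (rowN C ⌊b⌋).H (rowN C ⌊b⌋).Ha (rowN C ⌊b⌋).Hs ii t c).gs *
        (Int.fract a - (⌈y⌉ - y))) * (if adjN ⌊b⌋ then b else 1) := by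
  unfold hR
  rw [mN_eq ha hc ht, (floor_u ht).2]
  congr 1
  cases t with
  | true =>
    simp only [gdZ, HN, HaN, HsN, if_true]
    push_cast
    ring
  | false =>
    simp only [gdZ, HN, HaN, HsN, Bool.false_eq_true, if_false]

end cell

theorem wdZ_ok (C : Cert) (ii : ℕ) (t : Bool) (c : ℕ) : WDok (eN C ii c) (wdZ C ii t c) :=
  ⟨rfl, rfl, rfl, rfl, rfl⟩

theorem gdZ_ok (C : Cert) (x xa xs ii : ℕ) (t : Bool) (c : ℕ) :
    GDok (eN C ii c) (gdZ C x xa xs ii t c) := ⟨rfl, rfl, rfl⟩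

theorem adj_iff' {A ii : ℕ} {i : ℤ} (h : (ii : ℤ) = i + A) : adj A ii = true ↔ adjN i := by
  unfold adj
  simp only [Bool.or_eq_true, Nat.beq_eq, Nat.succ_eq_add_one]
  unfold adjN
  omega

theorem tg_eq (p : Par) {A ii : ℕ} {a : ℝ} (h : (ii : ℤ) = ⌊a⌋ + A) :
    ((cond (Nat.ble A ii) p.tgp p.tgn).v : ℝ) = if 0 ≤ a then p.toR.tgp else p.toR.tgn := by
  have h1 : (0 ≤ a) ↔ A ≤ ii := by
    rw [← Int.floor_nonneg]; omega
  by_cases h2 : A ≤ ii
  · rw [if_pos (h1.2 h2)]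
    have : Nat.ble A ii = true := Nat.ble_eq_true_of_le h2
    rw [this]
    rfl
  · rw [if_neg (fun h => h2 (h1.1 h))]
    have : Nat.ble A ii = false := by
      rw [Bool.eq_false_iff]
      exact fun h => h2 (Nat.le_of_ble_eq_true h)
    rw [this]
    rfl

/-- the terms with functions of `u = y + a`: `KsR` is the sum of `KuR a b y + KuR b a y` and
`KrR a b y + KrR b a y`. Here `X = α - ζ`, `ta = (α < ζ)`. -/
theorem KsR_eq_evalP {C : Cert} (p : Par) {a b y : ℝ} {ii jj c : ℕ} {ta tb : Bool}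
    (ha : (ii : ℤ) = ⌊a⌋ + C.A) (hb : (jj : ℤ) = ⌊b⌋ + C.A) (hc : (c : ℤ) = ⌈y⌉ + (C.U + C.A))
    (hta : ta = true ↔ Int.fract a < ⌈y⌉ - y) (htb : tb = true ↔ Int.fract b < ⌈y⌉ - y) :
    KsR C p.toR a b y =
      evalP (cellZ C p ii jj (rowN C ⌊a⌋) (rowN C ⌊b⌋) ta tb c)
        (Int.fract a) (Int.fract b) (⌈y⌉ - y) := by
  unfold cellZ pasm
  rw [evalP_padd, evalP_padd, evalP_swapXY, evalP_psub, evalP_psub]
  have ecv : cvZ C c = ⟨1, ⌈y⌉, ⌈y⌉ ^ 2⟩ := by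
    unfold cvZ
    have : (c : ℤ) - (C.U + C.A) = ⌈y⌉ := by rw [hc]; ring
    rw [this]
  rw [ecv]
  unfold uZ rpZ
  rw [ufull_eval (wdZ_ok C ii ta c) (gdZ_ok C _ _ _ ii ta c) (gdZ_ok C _ _ _ ii ta c),
    ufull_eval (wdZ_ok C jj tb c) (gdZ_ok C _ _ _ jj tb c) (gdZ_ok C _ _ _ jj tb c), rasm_eval]
  have hi : (((⟨ii, C.A⟩ : Z).v : ℤ) : ℝ) + Int.fract a = a := by
    have : (⟨ii, C.A⟩ : Z).v = ⌊a⌋ := by
      unfold Z.v
      simp only
      rw [ha]; ring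
    rw [this, Int.floor_add_fract]
  have hj : (((⟨jj, C.A⟩ : Z).v : ℤ) : ℝ) + Int.fract b = b := by
    have : (⟨jj, C.A⟩ : Z).v = ⌊b⌋ := by
      unfold Z.v
      simp only
      rw [hb]; ring
    rw [this, Int.floor_add_fract]
  have hQ : (((⟨Nat.mul C.A C.A, 0⟩ : Z).v : ℤ) : ℝ) = (C.A : ℝ) ^ 2 := by
    unfold Z.v
    simp only [Nat.mul_eq]
    push_cast
    ring
  have hu : ((eN C ii c : ℤ) : ℝ) + (Int.fract a - (⌈y⌉ - y)) = y + a := by
    rw [eN_eq ha hc]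
    have := Int.floor_add_fract a
    push_cast
    linarith
  have hv : ((eN C jj c : ℤ) : ℝ) + (Int.fract b - (⌈y⌉ - y)) = y + b := by
    rw [eN_eq hb hc]
    have := Int.floor_add_fract b
    push_cast
    linarith
  have hy : (⌈y⌉ : ℝ) - (⌈y⌉ - y) = y := by ring
  rw [hi, hj, hQ, hu, hv, hy]
  unfold KsR KhR
  rw [psiR_cell ha hc hta, psiR_cell hb hc htb, hhR_cell ha hc hta, hhR_cell hb hc htb,
    s3R_cell ha hc hta, s3R_cell hb hc htb, oneR_cell ha hc hta, oneR_cell hb hc htb,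
    gR_cell ha hc hta, gR_cell hb hc htb, hR_cell ha hc hta b, hR_cell hb hc htb a]
  have hI := adj_iff' ha
  have hJ := adj_iff' hb
  unfold mR lamR mu1R mu2R phi1R phi2R rval
  rw [tg_eq p ha, tg_eq p hb]
  simp only [hI, hJ, hQ, Par.toR]
  ring

end Pool.Agent.MMSChk
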