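import Pool.Agent.MMSChk.Pair
import Pool.Agent.MMSChk.Expand
import Pool.Agent.MMS39.Traverse

/-!
# Soundness of the check, for `|y| ≤ U + A`
-/

set_option autoImplicit false

namespace Pool.Agent.MMSChk

open Pool.Agent.MMS39

/-- the default row -/
def row0 : ARow := ⟨⟨0, 0⟩, ⟨0, 0⟩, ⟨0, 0⟩, ⟨0, 0⟩, ⟨0, 0⟩, ⟨0, 0⟩, ⟨0, 0⟩, ⟨0, 0⟩, 0, 0, 0, 0, 0, 0⟩

theorem rowN_eq (C : Cert) (i : ℤ) : rowN C i = C.rows.getD (i + C.A).toNat row0 := rfl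

theorem absI_le {A ii : ℕ} {a : ℝ} (h : (ii : ℤ) = ⌊a⌋ + A) : (absI A ii : ℝ) ≤ |a| := by
  have h1 := Int.floor_le a
  have h2 := Int.lt_floor_add_one a
  have h3 : (ii : ℝ) = ⌊a⌋ + A := by exact_mod_cast h
  unfold absI
  rcases hb : Nat.ble A ii with _ | _
  · have hlt : ii < A := by
      by_contra hc
      rw [Nat.ble_eq_true_of_le (not_lt.1 hc)] at hb
      exact absurd hb (by decide)
    rw [cond_false]
    have e : Nat.pred (Nat.sub A ii) = A - ii - 1 := rfl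
    rw [e]
    have e2 : ((A - ii - 1 : ℕ) : ℝ) = (A : ℝ) - ii - 1 := by
      rw [Nat.cast_sub (by omega), Nat.cast_sub hlt.le]; push_cast; ring
    rw [e2]
    have := neg_abs_le a
    linarith
  · have hle : A ≤ ii := Nat.le_of_ble_eq_true hb
    rw [cond_true]
    have e : Nat.sub ii A = ii - A := rfl
    rw [e, Nat.cast_sub hle]
    have := le_abs_self a
    linarith

theorem not_skip {A ii jj : ℕ} {a b : ℝ} (ha : (ii : ℤ) = ⌊a⌋ + A) (hb : (jj : ℤ) = ⌊b⌋ + A)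
    (hab : a ^ 2 + b ^ 2 ≤ (A : ℝ) ^ 2) : skip A ii jj ≠ true := by
  intro h
  unfold skip Nat.blt at h
  have h1 := Nat.le_of_ble_eq_true h
  have h2 := absI_le ha
  have h3 := absI_le hb
  have h4 : (absI A ii : ℝ) ^ 2 ≤ a ^ 2 := by
    rw [← sq_abs a]; exact pow_le_pow_left₀ (Nat.cast_nonneg _) h2 2
  have h5 : (absI A jj : ℝ) ^ 2 ≤ b ^ 2 := by
    rw [← sq_abs b]; exact pow_le_pow_left₀ (Nat.cast_nonneg _) h3 2
  have h6 : (A * A + 1 : ℕ) ≤ absI A ii * absI A ii + absI A jj * absI A jj := h1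
  have h7 : ((A * A + 1 : ℕ) : ℝ) ≤ ((absI A ii * absI A ii + absI A jj * absI A jj : ℕ) : ℝ) := by
    exact_mod_cast h6
  push_cast at h7
  nlinarith

theorem floor_mem {A : ℕ} {a : ℝ} (ha : |a| < A) : -(A : ℤ) ≤ ⌊a⌋ ∧ ⌊a⌋ < (A : ℤ) := by
  rw [abs_lt] at ha
  constructor
  · rw [Int.le_floor]; push_cast; linarith
  · rw [Int.floor_lt]; push_cast; linarith

/-- The integrand is nonnegative for `|y| ≤ U + A`, and the test of the tails is true. -/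
theorem check_mid {C : Cert} {p : Par} (h : check C p = true) {a b : ℝ} (ha : |a| < C.A)
    (hb : |b| < C.A) (hba : b ≤ a) (hab : a ^ 2 + b ^ 2 ≤ (C.A : ℝ) ^ 2) :
    ∃ r s : RD, (r.ii : ℤ) = ⌊a⌋ + C.A ∧ (s.ii : ℤ) = ⌊b⌋ + C.A ∧ r.R = rowN C ⌊a⌋ ∧
      s.R = rowN C ⌊b⌋ ∧ tailOk (mkCtx C p) r s = true ∧
      ∀ y : ℝ, |y| ≤ (C.U : ℝ) + C.A → 0 ≤ KsR C p.toR a b y := by
  obtain ⟨hs, -, -⟩ := check_pairs h row0
  obtain ⟨a1, a2⟩ := floor_mem ha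
  obtain ⟨b1, b2⟩ := floor_mem hb
  have hfl : ⌊b⌋ ≤ ⌊a⌋ := Int.floor_le_floor hba
  obtain ⟨ii, jj, hii, hjj, hg⟩ := check_cells h row0 b1 hfl a2
  rw [← rowN_eq, ← rowN_eq] at hg
  rcases hg with hg | ⟨hg1, hg2⟩
  · exact absurd hg (not_skip hii hjj hab)
  refine ⟨_, _, hii, hjj, rfl, rfl, hg2, fun y hy => ?_⟩
  rw [abs_le] at hy
  have c1 : -((C.U : ℤ) + C.A) ≤ ⌈y⌉ := by
    have : (-((C.U : ℝ) + C.A)) ≤ ⌈y⌉ := hy.1.trans (Int.le_ceil y)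
    exact_mod_cast this
  have c2 : ⌈y⌉ ≤ (C.U : ℤ) + C.A := by
    rw [Int.ceil_le]; push_cast; exact hy.2
  obtain ⟨c, hc⟩ : ∃ c : ℕ, (c : ℤ) = ⌈y⌉ + (C.U + C.A) := ⟨(⌈y⌉ + (C.U + C.A)).toNat, by omega⟩
  have hcn : c < nl C := by
    have e : nl C = 2 * (C.U + C.A) + 1 := rfl
    rw [e]; omega
  have z0 : 0 ≤ ⌈y⌉ - y := sub_nonneg.2 (Int.le_ceil y)
  have z1 : ⌈y⌉ - y ≤ 1 := by
    have := Int.ceil_lt_add_one y
    linarith
  have hP := pairOk_sound hs (by omega) (by omega) hg1 hcn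
  rw [KsR_eq_evalP p (ta := decide (Int.fract a < ⌈y⌉ - y)) (tb := decide (Int.fract b < ⌈y⌉ - y))
    hii hjj hc decide_eq_true_iff decide_eq_true_iff]
  exact hP.evalP_nonneg (Int.fract_nonneg a) (Int.fract_lt_one a).le (Int.fract_nonneg b)
    (Int.fract_lt_one b).le z0 z1 decide_eq_true_iff decide_eq_true_iff

end Pool.Agent.MMSChk
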