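import Pool.Agent.MMSChk.Defs

/-!
# Bernstein numbers

PLAN. With `l0 = 1 - x`, `l1 = x - y`, `l2 = y - z`, `l3 = z` the value of the polynomial is
`∑ (bern p)_κ l^κ` (a polynomial identity: `unfold`/`simp only [bern, intOps]`, `push_cast`, `ring`),
where the field `c0` belongs to `l0^3`, `cx` to `l0^2 l1`, `cy` to `l0^2 l2`, `cz` to `l0^2 l3`,
`cxx` to `l0 l1^2`, `cxy` to `l0 l1 l2`, and so on, `czzz` to `l3^3`.
-/

set_option autoImplicit false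

namespace Pool.Agent.MMSChk

/-- the value of the polynomial -/
noncomputable def evalP (p : P20 ℤ) (x y z : ℝ) : ℝ :=
  p.c0 + p.cx * x + p.cy * y + p.cz * z + p.cxx * x ^ 2 + p.cxy * (x * y) + p.cxz * (x * z) +
  p.cyy * y ^ 2 + p.cyz * (y * z) + p.czz * z ^ 2 + p.cxxx * x ^ 3 + p.cxxy * (x ^ 2 * y) +
  p.cxxz * (x ^ 2 * z) + p.cxyy * (x * y ^ 2) + p.cxyz * (x * y * z) + p.cxzz * (x * z ^ 2) +
  p.cyyy * y ^ 3 + p.cyyz * (y ^ 2 * z) + p.cyzz * (y * z ^ 2) + p.czzz * z ^ 3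

structure P20.Nonneg (p : P20 ℤ) : Prop where
  c0 : 0 ≤ p.c0
  cx : 0 ≤ p.cx
  cy : 0 ≤ p.cy
  cz : 0 ≤ p.cz
  cxx : 0 ≤ p.cxx
  cxy : 0 ≤ p.cxy
  cxz : 0 ≤ p.cxz
  cyy : 0 ≤ p.cyy
  cyz : 0 ≤ p.cyz
  czz : 0 ≤ p.czz
  cxxx : 0 ≤ p.cxxx
  cxxy : 0 ≤ p.cxxy
  cxxz : 0 ≤ p.cxxz
  cxyy : 0 ≤ p.cxyy
  cxyz : 0 ≤ p.cxyz
  cxzz : 0 ≤ p.cxzz
  cyyy : 0 ≤ p.cyyy
  cyyz : 0 ≤ p.cyyz
  cyzz : 0 ≤ p.cyzz
  czzz : 0 ≤ p.czzz

theorem bern_nonneg {p : P20 ℤ} (h : (bern intOps p).Nonneg) {x y z : ℝ} (hx : x ≤ 1)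
    (hy : y ≤ x) (hz : z ≤ y) (h0 : 0 ≤ z) : 0 ≤ evalP p x y z := by
  obtain ⟨l0, hl0⟩ : ∃ l, l = 1 - x := ⟨_, rfl⟩
  obtain ⟨l1, hl1⟩ : ∃ l, l = x - y := ⟨_, rfl⟩
  obtain ⟨l2, hl2⟩ : ∃ l, l = y - z := ⟨_, rfl⟩
  have n0 : 0 ≤ l0 := by linarith
  have n1 : 0 ≤ l1 := by linarith
  have n2 : 0 ≤ l2 := by linarith
  have key : evalP p x y z =
      ((bern intOps p).c0 : ℝ) * l0 ^ 3 + ((bern intOps p).cx : ℝ) * (l0 ^ 2 * l1) +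
      ((bern intOps p).cy : ℝ) * (l0 ^ 2 * l2) + ((bern intOps p).cz : ℝ) * (l0 ^ 2 * z) +
      ((bern intOps p).cxx : ℝ) * (l0 * l1 ^ 2) + ((bern intOps p).cxy : ℝ) * (l0 * l1 * l2) +
      ((bern intOps p).cxz : ℝ) * (l0 * l1 * z) + ((bern intOps p).cyy : ℝ) * (l0 * l2 ^ 2) +
      ((bern intOps p).cyz : ℝ) * (l0 * l2 * z) + ((bern intOps p).czz : ℝ) * (l0 * z ^ 2) +
      ((bern intOps p).cxxx : ℝ) * l1 ^ 3 + ((bern intOps p).cxxy : ℝ) * (l1 ^ 2 * l2) +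
      ((bern intOps p).cxxz : ℝ) * (l1 ^ 2 * z) + ((bern intOps p).cxyy : ℝ) * (l1 * l2 ^ 2) +
      ((bern intOps p).cxyz : ℝ) * (l1 * l2 * z) + ((bern intOps p).cxzz : ℝ) * (l1 * z ^ 2) +
      ((bern intOps p).cyyy : ℝ) * l2 ^ 3 + ((bern intOps p).cyyz : ℝ) * (l2 ^ 2 * z) +
      ((bern intOps p).cyzz : ℝ) * (l2 * z ^ 2) + ((bern intOps p).czzz : ℝ) * z ^ 3 := by
    have hx' : x = l1 + l2 + z := by rw [hl1, hl2]; ring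
    have hy' : y = l2 + z := by rw [hl2]; ring
    have h1' : l0 = 1 - (l1 + l2 + z) := by rw [hl0, hl1, hl2]; ring
    rw [hx', hy', h1']
    clear hx' hy' h1' hl0 hl1 hl2 n0 n1 n2 hx hy hz h h0
    simp only [evalP, bern, intOps]
    push_cast
    ring
  rw [key]
  have q : ∀ {m : ℤ}, 0 ≤ m → (0 : ℝ) ≤ (m : ℝ) := fun hm => by exact_mod_cast hm
  have a1 := q h.c0
  have a2 := q h.cx
  have a3 := q h.cy
  have a4 := q h.cz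
  have a5 := q h.cxx
  have a6 := q h.cxy
  have a7 := q h.cxz
  have a8 := q h.cyy
  have a9 := q h.cyz
  have a10 := q h.czz
  have a11 := q h.cxxx
  have a12 := q h.cxxy
  have a13 := q h.cxxz
  have a14 := q h.cxyy
  have a15 := q h.cxyz
  have a16 := q h.cxzz
  have a17 := q h.cyyy
  have a18 := q h.cyyz
  have a19 := q h.cyzz
  have a20 := q h.czzz
  clear key
  generalize bern intOps p = P at *
  positivity

end Pool.Agent.MMSChk
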