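import Pool.Agent.MMSChk.Tables
import Pool.Agent.MMSChk.Bern

/-!
# The polynomial of a cell, over the integers

The statements that connect the check with the integrand `KsR`:
* `KsR_eq_evalP` (algebra),
* `pairOk_sound` (from lanes to integers),
* `check_pairs` (list traversal).
-/

set_option autoImplicit false

namespace Pool.Agent.MMSChk

/-- the lane values `1, c, c ^ 2` -/
def cvZ (C : Cert) (c : ℕ) : CV ℤ :=
  ⟨1, (c : ℤ) - (C.U + C.A), ((c : ℤ) - (C.U + C.A)) ^ 2⟩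

/-- the terms with functions of `u`, as polynomial in `α, β, X` -/
def uZ (C : Cert) (p : Par) (ii jj : ℕ) (R S : ARow) (t : Bool) (c : ℕ) : P20 ℤ :=
  ufull intOps p ⟨Nat.mul C.A C.A, 0⟩ ⟨ii, C.A⟩ ⟨jj, C.A⟩ (adj C.A ii) (adj C.A jj) R S
    (wdZ C ii t c) (gdZ C R.G R.Ga R.Gs ii t c) (gdZ C S.H S.Ha S.Hs ii t c)

/-- the scalars of the other terms -/
def rpZ (C : Cert) (p : Par) (ii jj : ℕ) (R : ARow) : RZ :=
  rpart p ⟨Nat.mul C.A C.A, 0⟩ ⟨ii, C.A⟩ ⟨jj, C.A⟩ (cond (Nat.ble C.A ii) p.tgp p.tgn)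
    (adj C.A ii) R

/-- the polynomial of the cell in `α, β, ζ` for the lane `c`; `ta` is `α < ζ`, `tb` is `β < ζ` -/
def cellZ (C : Cert) (p : Par) (ii jj : ℕ) (R S : ARow) (ta tb : Bool) (c : ℕ) : P20 ℤ :=
  pasm intOps (uZ C p ii jj R S ta c) (uZ C p jj ii S R tb c)
    (rasm intOps (cvZ C c) (rpZ C p ii jj R) (rpZ C p jj ii S))

end Pool.Agent.MMSChk
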