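import Pool.Agent.MMSChk.Lanes

/-!
# The certificate checker: definitions

Grid units: `a = i + α`, `b = j + β`, `y = c - ζ`, `u = y + a = (i + c) + (α - ζ)`,
`v = y + b = (j + c) + (β - ζ)`.  The lanes are the values of `c`.

The polynomials are computed by code that is polymorphic in the type `M` of the coefficients:
`M = LV` for the computation, `M = ℤ` for the meaning.
-/

set_option autoImplicit false

namespace Pool.Agent.MMSChk

/-- the operations that are used -/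
structure Ops (M : Type) where
  add : M → M → M
  sm : Z → M → M
  neg : M → M
  dbl : M → M
  tpl : M → M
  zero : M

/-- polynomials of degree at most 3 in three variables -/
structure P20 (M : Type) where
  c0 : M
  cx : M
  cy : M
  cz : M
  cxx : M
  cxy : M
  cxz : M
  cyy : M
  cyz : M
  czz : M
  cxxx : M
  cxxy : M
  cxxz : M
  cxyy : M
  cxyz : M
  cxzz : M
  cyyy : M
  cyyz : M
  cyzz : M
  czzz : M

/-- the scalar parameters -/
structure Par where
  te : Z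
  tpq : Z
  tee : Z
  tp : Z
  tq : Z
  tt : Z
  tl : Z
  tgp : Z
  tgn : Z
  t1 : Z
  t2 : Z
  t3 : Z
  t4 : Z
  t5 : Z

/-- the data of a cell `[i, i + 1)` of the variable `a` -/
structure ARow where
  M0 : Z
  M1 : Z
  L0 : Z
  L1 : Z
  mu1 : Z
  mu2 : Z
  f1 : Z
  f2 : Z
  G : ℕ
  Ga : ℕ
  Gs : ℕ
  H : ℕ
  Ha : ℕ
  Hs : ℕ

/-- a certificate; the functions of `u` are packed with 24 bits per value and the offset
`2 ^ 23` -/
structure Cert where
  A : ℕ
  U : ℕ
  ps : ℕ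
  pc : ℕ
  hl : ℕ
  hr : ℕ
  hm : ℕ
  hp : ℕ
  s3 : ℕ
  rows : List ARow

/-! ### tables -/

/-- `2 ^ 24` -/
def b24 : ℕ := 16777216

/-- `2 ^ 23` -/
def o23 : ℕ := 8388608

/-- from 24 bits per value to 128 bits per value -/
def unpack : ℕ → ℕ → ℕ
  | 0, _ => 0
  | n + 1, x => Nat.add (Nat.mod x b24) (Nat.mul B (unpack n (Nat.shiftRight x 24)))

/-- `n` values, extended by `P` values `lo` below and `P` values `hi` above -/
def tbl (n P x lo hi : ℕ) : LV :=
  ⟨Nat.add (Nat.mul lo (ones P))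
    (Nat.mul (Nat.pow 2 (Nat.mul 128 P)) (Nat.add (unpack n x)
      (Nat.mul (Nat.pow 2 (Nat.mul 128 n)) (Nat.mul hi (ones P))))), o23⟩

/-- the windows of the functions of `u = e + X`; `psi = p0 + D X - C X ^ 2`, `hh = h0 + h1 X`,
`1_u = w1`, `psi3 = s3`, and the products with `e` and `e ^ 2` -/
structure WD (M : Type) where
  p0 : M
  ep : M
  D : M
  eD : M
  C : M
  eC : M
  h0 : M
  h1 : M
  w1 : M
  s3 : M
  e1 : M
  e2 : M

/-- the windows of `G` or `H`: the function is `g0 + ga α + gs X`, and the products with `e` -/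
structure GD (M : Type) where
  g0 : M
  ga : M
  gs : M
  e0 : M
  ea : M
  es : M

/-- the tables of the functions of `u`; the last letter `0` or `1` is for the cells
`m = e` and `m = e - 1` -/
structure Tab where
  psi : LV
  mpsi : LV
  D0 : LV
  D1 : LV
  mD0 : LV
  mD1 : LV
  C : LV
  mC0 : LV
  mC1 : LV
  hl : LV
  hr : LV
  dh : LV
  one : LV
  s3 : LV
  ms30 : LV
  ms31 : LV
  mms30 : LV
  mms31 : LV

/-- the tables of `G` or `H` for one cell -/
structure GTab where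
  g0 : LV
  g1 : LV
  ga : LV
  gs : LV
  mg0 : LV
  mg1 : LV
  ma0 : LV
  ma1 : LV
  ms0 : LV
  ms1 : LV

/-- number of padding values -/
def pad (C : Cert) : ℕ := Nat.succ (Nat.mul 2 C.A)

/-- length of the tables of the cells -/
def lt (C : Cert) : ℕ := Nat.add (Nat.mul 2 C.U) (Nat.mul 2 (pad C))

/-- number of lanes -/
def nl (C : Cert) : ℕ := Nat.succ (Nat.mul 2 (Nat.add C.U C.A))

def sub (on : ℕ) (v w : LV) : LV := LV.add v (LV.neg on w)

def mkTab (C : Cert) : Tab :=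
  let P := pad C
  let T := lt C
  let on := ones T
  let s := Nat.add C.U P
  let s1 := Nat.pred s
  let n := Nat.mul 2 C.U
  let psi := tbl (Nat.succ n) P C.ps (Nat.mod C.ps b24)
    (Nat.mod (Nat.shiftRight C.ps (Nat.mul 24 n)) b24)
  let pc := tbl n P C.pc o23 o23
  let dpsi := sub on (LV.win 1 T psi) (LV.win 0 T psi)
  let D0 := LV.add dpsi pc
  let D1 := sub on dpsi pc
  let hl := tbl n P C.hl C.hm C.hp
  let hr := tbl n P C.hr C.hm C.hp
  let s3 := tbl n P C.s3 o23 o23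
  let ms30 := LV.idx T on s T s3
  let ms31 := LV.idx T on s1 T s3
  { psi := psi
    mpsi := LV.idx (Nat.succ T) (ones (Nat.succ T)) s (Nat.succ T) psi
    D0 := D0
    D1 := D1
    mD0 := LV.idx T on s T D0
    mD1 := LV.idx T on s1 T D1
    C := pc
    mC0 := LV.idx T on s T pc
    mC1 := LV.idx T on s1 T pc
    hl := hl
    hr := hr
    dh := sub on hr hl
    one := ⟨Nat.add on (Nat.mul (Nat.pow 2 (Nat.mul 128 s)) (ones s)), 1⟩
    s3 := s3
    ms30 := ms30
    ms31 := ms31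
    mms30 := LV.idx T on s T ms30
    mms31 := LV.idx T on s1 T ms31 }

/-- the tables of a function with the packed lists `x`, `xa`, `xs` -/
def mkGTab (C : Cert) (x xa xs : ℕ) : GTab :=
  let P := pad C
  let T := lt C
  let on := ones T
  let s := Nat.add C.U P
  let s1 := Nat.pred s
  let n := Nat.mul 2 C.U
  let g0 := tbl n P x o23 o23
  let ga := tbl n P xa o23 o23
  let gs := tbl n P xs o23 o23
  let g1 := LV.add g0 gs
  { g0 := g0
    g1 := g1
    ga := ga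
    gs := gs
    mg0 := LV.idx T on s T g0
    mg1 := LV.idx T on s1 T g1
    ma0 := LV.idx T on s T ga
    ma1 := LV.idx T on s1 T ga
    ms0 := LV.idx T on s T gs
    ms1 := LV.idx T on s1 T gs }

/-- the windows for the cell with the index `ii = i + A`; `t = true` if `α < ζ` -/
def mkWD (n : ℕ) (T : Tab) (ii : ℕ) (t : Bool) : WD LV :=
  let s := cond t ii (Nat.succ ii)
  { p0 := LV.win (Nat.succ ii) n T.psi
    ep := LV.win (Nat.succ ii) n T.mpsi
    D := LV.win s n (cond t T.D1 T.D0)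
    eD := LV.win s n (cond t T.mD1 T.mD0)
    C := LV.win s n T.C
    eC := LV.win s n (cond t T.mC1 T.mC0)
    h0 := LV.win s n (cond t T.hr T.hl)
    h1 := LV.win s n T.dh
    w1 := LV.win s n T.one
    s3 := LV.win s n T.s3
    e1 := LV.win s n (cond t T.ms31 T.ms30)
    e2 := LV.win s n (cond t T.mms31 T.mms30) }

def mkG (n : ℕ) (T : GTab) (ii : ℕ) (t : Bool) : GD LV :=
  let s := cond t ii (Nat.succ ii)
  { g0 := LV.win s n (cond t T.g1 T.g0)
    ga := LV.win s n T.ga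
    gs := LV.win s n T.gs
    e0 := LV.win s n (cond t T.mg1 T.mg0)
    ea := LV.win s n (cond t T.ma1 T.ma0)
    es := LV.win s n (cond t T.ms1 T.ms0) }

/-! ### the polynomials -/

section
variable {M : Type}

/-- the terms `g(a, u) (p b + q u)` for `q = ± te`, as a polynomial in `α, β, X`, without the
factor `a` -/
def gpart (O : Ops M) (p q j : Z) (g : GD M) : P20 M :=
  let pj := Z.mul p j
  let z := O.zero
  { c0 := O.add (O.sm pj g.g0) (O.sm q g.e0)
    cx := O.add (O.sm pj g.ga) (O.sm q g.ea)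
    cy := O.sm p g.g0
    cz := O.add (O.sm q (O.add g.g0 g.es)) (O.sm pj g.gs)
    cxx := z
    cxy := O.sm p g.ga
    cxz := O.sm q g.ga
    cyy := z
    cyz := O.sm p g.gs
    czz := O.sm q g.gs
    cxxx := z
    cxxy := z
    cxxz := z
    cxyy := z
    cxyz := z
    cxzz := z
    cyyy := z
    cyyz := z
    cyzz := z
    czzz := z }

/-- multiply a polynomial of degree 2 without the terms `x^2`, `y^2` by `i + x` -/
def mulx (O : Ops M) (i : Z) (g : P20 M) : P20 M :=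
  let z := O.zero
  { c0 := O.sm i g.c0
    cx := O.add g.c0 (O.sm i g.cx)
    cy := O.sm i g.cy
    cz := O.sm i g.cz
    cxx := g.cx
    cxy := O.add g.cy (O.sm i g.cxy)
    cxz := O.add g.cz (O.sm i g.cxz)
    cyy := z
    cyz := O.sm i g.cyz
    czz := O.sm i g.czz
    cxxx := z
    cxxy := g.cxy
    cxxz := g.cxz
    cxyy := z
    cxyz := g.cyz
    cxzz := g.czz
    cyyy := z
    cyyz := z
    cyzz := z
    czzz := z }

/-- exchange the first two variables -/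
def swapXY (p : P20 M) : P20 M :=
  ⟨p.c0, p.cy, p.cx, p.cz, p.cyy, p.cxy, p.cyz, p.cxx, p.cxz, p.czz,
    p.cyyy, p.cxyy, p.cyyz, p.cxxy, p.cxyz, p.cyzz, p.cxxx, p.cxxz, p.cxzz, p.czzz⟩

/-- exchange the last two variables -/
def swapYZ (p : P20 M) : P20 M :=
  ⟨p.c0, p.cx, p.cz, p.cy, p.cxx, p.cxz, p.cxy, p.czz, p.cyz, p.cyy,
    p.cxxx, p.cxxz, p.cxxy, p.cxzz, p.cxyz, p.cxyy, p.czzz, p.cyzz, p.cyyz, p.cyyy⟩

/-- the sum of two polynomials -/
def padd (O : Ops M) (p q : P20 M) : P20 M :=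
  let a := O.add
  ⟨a p.c0 q.c0, a p.cx q.cx, a p.cy q.cy, a p.cz q.cz, a p.cxx q.cxx, a p.cxy q.cxy,
    a p.cxz q.cxz, a p.cyy q.cyy, a p.cyz q.cyz, a p.czz q.czz,
    a p.cxxx q.cxxx, a p.cxxy q.cxxy, a p.cxxz q.cxxz, a p.cxyy q.cxyy, a p.cxyz q.cxyz,
    a p.cxzz q.cxzz, a p.cyyy q.cyyy, a p.cyyz q.cyyz, a p.cyzz q.cyzz, a p.czzz q.czzz⟩

/-- substitute `z := x - z` -/
def psub (O : Ops M) (p : P20 M) : P20 M :=
  let a := O.add
  let n := O.neg
  { c0 := p.c0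
    cx := a p.cx p.cz
    cy := p.cy
    cz := n p.cz
    cxx := a (a p.cxx p.cxz) p.czz
    cxy := a p.cxy p.cyz
    cxz := n (a p.cxz (O.dbl p.czz))
    cyy := p.cyy
    cyz := n p.cyz
    czz := p.czz
    cxxx := a (a p.cxxx p.cxxz) (a p.cxzz p.czzz)
    cxxy := a (a p.cxxy p.cxyz) p.cyzz
    cxxz := n (a (a p.cxxz (O.dbl p.cxzz)) (O.tpl p.czzz))
    cxyy := a p.cxyy p.cyyz
    cxyz := n (a p.cxyz (O.dbl p.cyzz))
    cxzz := a p.cxzz (O.tpl p.czzz)
    cyyy := p.cyyy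
    cyyz := n p.cyyz
    cyzz := p.cyzz
    czzz := n p.czzz }

/-- the terms with `psi(u)`, `psi3(u)`, `hh(u)`, `1_u`; `i` and `j` are the numbers of the cells
of `a` and `b`; a polynomial in `α`, `β`, `X` -/
def upart (O : Ops M) (p : Par) (Q i j : Z) (r s : ARow) (w : WD M) : P20 M :=
  let ij := Z.mul i j
  let P10 := Z.add (Z.mul p.tp r.M0) (Z.mul p.tl r.L0)
  let P11 := Z.sub (Z.add (Z.mul p.tp r.M1) (Z.mul p.tl r.L1)) P10
  let P20' := Z.mul p.tq s.M0
  let P21 := Z.sub (Z.mul p.tq s.M1) P20'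
  let ii := Z.mul i i
  let jj := Z.mul j j
  let k0 := Z.sub (Z.sub (Z.mul p.te Q) (Z.mul p.tp ii)) (Z.mul p.tq jj)
  let d := Z.mul p.tpq (Z.sub j i)
  let m := Z.neg p.tpq
  let mpi := Z.neg (Z.dbl (Z.mul p.tp i))
  let mqj := Z.neg (Z.dbl (Z.mul p.tq j))
  { c0 := O.add (O.add (O.add (O.sm p.te w.ep) (O.sm d w.p0)) (O.sm (Z.mul p.tpq ij) w.s3))
      (O.add (O.add (O.sm p.tee w.e2) (O.sm k0 w.h0))
        (O.sm (Z.add (Z.mul P10 ii) (Z.mul P20' jj)) w.w1))
    cx := O.add (O.add (O.sm m w.p0) (O.sm (Z.mul p.tpq j) w.s3))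
      (O.add (O.sm mpi w.h0) (O.sm (Z.add (Z.dbl (Z.mul P10 i)) (Z.mul P11 ii)) w.w1))
    cy := O.add (O.add (O.sm p.tpq w.p0) (O.sm (Z.mul p.tpq i) w.s3))
      (O.add (O.sm mqj w.h0) (O.sm (Z.add (Z.dbl (Z.mul P20' j)) (Z.mul P21 jj)) w.w1))
    cz := O.add (O.add (O.sm p.te (O.add w.p0 w.eD)) (O.sm d w.D))
      (O.add (O.sm (Z.dbl p.tee) w.e1) (O.sm k0 w.h1))
    cxx := O.add (O.sm (Z.neg p.tp) w.h0) (O.sm (Z.add P10 (Z.dbl (Z.mul P11 i))) w.w1)
    cxy := O.sm p.tpq w.s3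
    cxz := O.add (O.sm m w.D) (O.sm mpi w.h1)
    cyy := O.add (O.sm (Z.neg p.tq) w.h0) (O.sm (Z.add P20' (Z.dbl (Z.mul P21 j))) w.w1)
    cyz := O.add (O.sm p.tpq w.D) (O.sm mqj w.h1)
    czz := O.add (O.add (O.sm p.te (O.add w.D (O.neg w.eC))) (O.sm (Z.neg d) w.C))
      (O.sm p.tee w.s3)
    cxxx := O.sm P11 w.w1
    cxxy := O.zero
    cxxz := O.sm (Z.neg p.tp) w.h1
    cxyy := O.zero
    cxyz := O.zero
    cxzz := O.sm p.tpq w.C
    cyyy := O.sm P21 w.w1
    cyyz := O.sm (Z.neg p.tq) w.h1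
    cyzz := O.sm m w.C
    czzz := O.sm (Z.neg p.te) w.C }

/-- all terms with functions of `u`: `g` are the windows of `G` of the cell `i`, `h` the windows of
`H` of the cell `j` -/
def ufull (O : Ops M) (p : Par) (Q i j : Z) (I J : Bool) (r s : ARow) (w : WD M)
    (g h : GD M) : P20 M :=
  let gp := gpart O p.tq p.te j g
  let hp := gpart O p.tp (Z.neg p.te) i h
  padd O (upart O p Q i j r s w)
    (padd O (cond I (mulx O i gp) gp) (swapXY (cond J (mulx O j hp) hp)))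

end

/-- the coefficients of the terms without functions of `u` and `v` for the role `a`: `k1`, `kc`,
`kcc` multiply `1, c, c ^ 2`; `ka, kac`: `α, c α`; `kb`: `β`; `kz, kzc`: `ζ, c ζ`; and so on -/
structure RZ where
  k1 : Z
  kc : Z
  kcc : Z
  ka : Z
  kac : Z
  kb : Z
  kz : Z
  kzc : Z
  kaa : Z
  kaac : Z
  kab : Z
  kbb : Z
  kaz : Z
  kzz : Z
  kaaa : Z
  kaaz : Z

def rpart (p : Par) (Q i j tg : Z) (I : Bool) (R : ARow) : RZ :=
  let S0 := Z.neg (Z.add (Z.mul p.tt R.M0) (Z.mul tg R.L0))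
  let S1 := Z.neg (Z.add (Z.add (Z.mul p.tt R.M1) (Z.mul tg R.L1)) S0)
  let ii := Z.mul i i
  let jj := Z.mul j j
  let n1 := Z.mul p.t1 R.mu1
  let n2 := Z.mul p.t2 R.mu1
  let f1 := Z.mul p.t1 R.f1
  let fe := Z.mul p.te R.f1
  let m3 := Z.mul p.t3 R.mu2
  let m45 := Z.mul (Z.sub p.t4 p.t5) R.mu2
  let m4 := Z.mul (Z.mul p.t4 Q) R.mu2
  let g1 := Z.mul p.t1 R.f2
  let ge := Z.mul p.te R.f2
  let s1 := Z.mul S0 ii
  let sa := Z.add (Z.dbl (Z.mul S0 i)) (Z.mul S1 ii)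
  let saa := Z.add S0 (Z.dbl (Z.mul S1 i))
  cond I
    { k1 := Z.add (Z.add s1 (Z.mul n2 (Z.mul ii i)))
        (Z.add (Z.mul f1 (Z.mul i j)) (Z.mul fe ii))
      kc := Z.mul n1 ii
      kcc := Z.zero
      ka := Z.add (Z.add sa (Z.mul (Z.mul ⟨3, 0⟩ n2) ii))
        (Z.add (Z.mul f1 j) (Z.dbl (Z.mul fe i)))
      kac := Z.dbl (Z.mul n1 i)
      kb := Z.mul f1 i
      kz := Z.neg (Z.mul n1 ii)
      kzc := Z.zero
      kaa := Z.add (Z.add saa (Z.mul (Z.mul ⟨3, 0⟩ n2) i)) fe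
      kaac := n1
      kab := f1
      kbb := Z.zero
      kaz := Z.neg (Z.dbl (Z.mul n1 i))
      kzz := Z.zero
      kaaa := Z.add S1 n2
      kaaz := Z.neg n1 }
    { k1 := Z.add (Z.add s1 (Z.mul n2 i))
        (Z.add (Z.add (Z.sub (Z.mul m45 ii) m4) (Z.add (Z.mul f1 j) (Z.mul fe i)))
          (Z.add (Z.mul g1 jj) (Z.mul ge (Z.sub ii Q))))
      kc := n1
      kcc := m3
      ka := Z.add (Z.add sa n2)
        (Z.add (Z.dbl (Z.mul m45 i)) (Z.add fe (Z.dbl (Z.mul ge i))))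
      kac := Z.zero
      kb := Z.add f1 (Z.dbl (Z.mul g1 j))
      kz := Z.neg n1
      kzc := Z.neg (Z.dbl m3)
      kaa := Z.add saa (Z.add m45 ge)
      kaac := Z.zero
      kab := Z.zero
      kbb := g1
      kaz := Z.zero
      kzz := m3
      kaaa := S1
      kaaz := Z.zero }

section
variable {M : Type}

/-- the lanes `1`, `c`, `c ^ 2` -/
structure CV (M : Type) where
  l1 : M
  lc : M
  lcc : M

/-- the terms without functions of `u` and `v`, a polynomial in `α, β, ζ` -/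
def rasm (O : Ops M) (v : CV M) (r s : RZ) : P20 M :=
  let z := O.zero
  { c0 := O.add (O.add (O.sm (Z.add r.k1 s.k1) v.l1) (O.sm (Z.add r.kc s.kc) v.lc))
      (O.sm (Z.add r.kcc s.kcc) v.lcc)
    cx := O.add (O.sm (Z.add r.ka s.kb) v.l1) (O.sm r.kac v.lc)
    cy := O.add (O.sm (Z.add s.ka r.kb) v.l1) (O.sm s.kac v.lc)
    cz := O.add (O.sm (Z.add r.kz s.kz) v.l1) (O.sm (Z.add r.kzc s.kzc) v.lc)
    cxx := O.add (O.sm (Z.add r.kaa s.kbb) v.l1) (O.sm r.kaac v.lc)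
    cxy := O.sm (Z.add r.kab s.kab) v.l1
    cxz := O.sm r.kaz v.l1
    cyy := O.add (O.sm (Z.add s.kaa r.kbb) v.l1) (O.sm s.kaac v.lc)
    cyz := O.sm s.kaz v.l1
    czz := O.sm (Z.add r.kzz s.kzz) v.l1
    cxxx := O.sm r.kaaa v.l1
    cxxy := z
    cxxz := O.sm r.kaaz v.l1
    cxyy := z
    cxyz := z
    cxzz := z
    cyyy := O.sm s.kaaa v.l1
    cyyz := O.sm s.kaaz v.l1
    cyzz := z
    czzz := z }

/-- the polynomial of the cell in `α, β, ζ` from the terms `u` (in `α, β, α - ζ`), `v` (in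
`β, α, β - ζ`) and the rest -/
def pasm (O : Ops M) (u v r : P20 M) : P20 M :=
  padd O (padd O (psub O u) (swapXY (psub O v))) r

/-- from the coefficients to 20 numbers whose nonnegativity implies that the polynomial is
nonnegative for `1 ≥ x ≥ y ≥ z ≥ 0`: `1 = l0 + x`, then `x = l1 + y`, then `y = l2 + z` -/
def bern (O : Ops M) (p : P20 M) : P20 M :=
  -- step 1: the coefficients of `l0 ^ s x ^ p y ^ q z ^ r`
  let t3 := fun a b c d => O.add (O.add a b) (O.add c d)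
  let t2 := fun a b c => O.add (O.add a b) c
  let a30 := p.c0
  let a21 := O.add (O.tpl p.c0) p.cx
  let a12 := t2 (O.tpl p.c0) (O.dbl p.cx) p.cxx
  let a03 := t3 p.c0 p.cx p.cxx p.cxxx
  let y20 := p.cy
  let y11 := O.add (O.dbl p.cy) p.cxy
  let y02 := t2 p.cy p.cxy p.cxxy
  let z20 := p.cz
  let z11 := O.add (O.dbl p.cz) p.cxz
  let z02 := t2 p.cz p.cxz p.cxxz
  let yy1 := p.cyy
  let yy0 := O.add p.cyy p.cxyy
  let yz1 := p.cyz
  let yz0 := O.add p.cyz p.cxyz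
  let zz1 := p.czz
  let zz0 := O.add p.czz p.cxzz
  -- step 2: `x = l1 + y`
  -- `l0^3`: a30; `l0^2 x`: a21, `l0^2 y`: y20, `l0^2 z`: z20
  let b2_1 := a21
  let b2_y := O.add a21 y20
  let b2_z := z20
  -- `l0`: a12 x^2 + y11 x y + z11 x z + yy1 y^2 + yz1 y z + zz1 z^2
  let b1_2 := a12
  let b1_1y := O.add (O.dbl a12) y11
  let b1_yy := t2 a12 y11 yy1
  let b1_1z := z11
  let b1_yz := O.add z11 yz1
  let b1_zz := zz1
  -- `1`: a03 x^3 + y02 x^2 y + z02 x^2 z + yy0 x y^2 + yz0 x y z + zz0 x z^2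
  --   + cyyy y^3 + cyyz y^2 z + cyzz y z^2 + czzz z^3
  let b0_3 := a03
  let b0_2y := O.add (O.tpl a03) y02
  let b0_1yy := t2 (O.tpl a03) (O.dbl y02) yy0
  let b0_yyy := t3 a03 y02 yy0 p.cyyy
  let b0_2z := z02
  let b0_1yz := O.add (O.dbl z02) yz0
  let b0_yyz := t2 z02 yz0 p.cyyz
  let b0_1zz := zz0
  let b0_yzz := O.add zz0 p.cyzz
  let b0_zzz := p.czzz
  -- step 3: `y = l2 + z`
  { c0 := a30
    cx := b2_1
    cy := b2_y
    cz := O.add b2_y b2_z
    cxx := b1_2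
    cxy := b1_1y
    cxz := O.add b1_1y b1_1z
    cyy := b1_yy
    cyz := O.add (O.dbl b1_yy) b1_yz
    czz := t2 b1_yy b1_yz b1_zz
    cxxx := b0_3
    cxxy := b0_2y
    cxxz := O.add b0_2y b0_2z
    cxyy := b0_1yy
    cxyz := O.add (O.dbl b0_1yy) b0_1yz
    cxzz := t2 b0_1yy b0_1yz b0_1zz
    cyyy := b0_yyy
    cyyz := O.add (O.tpl b0_yyy) b0_yyz
    cyzz := t2 (O.tpl b0_yyy) (O.dbl b0_yyz) b0_yzz
    czzz := t3 b0_yyy b0_yyz b0_yzz b0_zzz }

end

/-- the operations on lanes -/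
def lvOps (on : ℕ) : Ops LV :=
  { add := LV.add
    sm := LV.smulZ on
    neg := LV.neg on
    dbl := LV.smul 2
    tpl := LV.smul 3
    zero := LV.zero }

/-- the operations on integers -/
def intOps : Ops ℤ :=
  { add := fun x y => x + y
    sm := fun s x => s.v * x
    neg := fun x => -x
    dbl := fun x => 2 * x
    tpl := fun x => 3 * x
    zero := 0 }

/-- all 20 tests -/
def okP (on gd : ℕ) (p : P20 LV) : Bool :=
  let t := LV.ok on gd
  and (and (and (and (t p.c0) (t p.cx)) (and (t p.cy) (t p.cz)))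
      (and (and (and (t p.cxx) (t p.cxy)) (t p.cxz)) (and (and (t p.cyy) (t p.cyz)) (t p.czz))))
    (and (and (and (and (t p.cxxx) (t p.cxxy)) (t p.cxxz)) (and (and (t p.cxyy) (t p.cxyz)) (t p.cxzz)))
      (and (and (t p.cyyy) (t p.cyyz)) (and (t p.cyzz) (t p.czzz))))

/-- the context of a check -/
structure Ctx where
  C : Cert
  p : Par
  Q : Z
  n : ℕ
  on : ℕ
  gd : ℕ
  T : Tab
  V : CV LV

def mkCtx (C : Cert) (p : Par) : Ctx :=
  let n := nl C
  let on := ones n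
  let l1 : LV := ⟨Nat.mul 2 on, 1⟩
  let Y := Nat.add C.U C.A
  let lc := LV.idx n on Y n l1
  { C := C
    p := p
    Q := ⟨Nat.mul C.A C.A, 0⟩
    n := n
    on := on
    gd := Nat.mul 170141183460469231731687303715884105728 on
    T := mkTab C
    V := ⟨l1, lc, LV.idx n on Y n lc⟩ }

/-- the data of a cell of `a` -/
structure RD where
  /-- `i + A` -/
  ii : ℕ
  R : ARow
  G : GTab
  H : GTab
  w0 : WD LV
  w1 : WD LV

def mkRD (X : Ctx) (ii : ℕ) (R : ARow) : RD :=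
  { ii := ii
    R := R
    G := mkGTab X.C R.G R.Ga R.Gs
    H := mkGTab X.C R.H R.Ha R.Hs
    w0 := mkWD X.n X.T ii false
    w1 := mkWD X.n X.T ii true }

/-- is the cell adjacent to `0`? -/
def adj (A ii : ℕ) : Bool := or (Nat.beq ii A) (Nat.beq (Nat.succ ii) A)

/-- the terms with functions of `u = y + a` for the cells `r` of `a` and `s` of `b` -/
def ucell (X : Ctx) (r s : RD) (t : Bool) : P20 LV :=
  ufull (lvOps X.on) X.p X.Q ⟨r.ii, X.C.A⟩ ⟨s.ii, X.C.A⟩ (adj X.C.A r.ii) (adj X.C.A s.ii)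
    r.R s.R (cond t r.w1 r.w0) (mkG X.n r.G r.ii t) (mkG X.n s.H r.ii t)

def rcell (X : Ctx) (r s : RD) : RZ :=
  rpart X.p X.Q ⟨r.ii, X.C.A⟩ ⟨s.ii, X.C.A⟩ (cond (Nat.ble X.C.A r.ii) X.p.tgp X.p.tgn)
    (adj X.C.A r.ii) r.R

def absI (A ii : ℕ) : ℕ := cond (Nat.ble A ii) (Nat.sub ii A) (Nat.pred (Nat.sub A ii))

/-- the cells with `a ^ 2 + b ^ 2 > A ^ 2` are skipped -/
def skip (A ii jj : ℕ) : Bool :=
  Nat.blt (Nat.mul A A)
    (Nat.add (Nat.mul (absI A ii) (absI A ii)) (Nat.mul (absI A jj) (absI A jj)))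

/-- the check of a pair of cells -/
def pairOk (X : Ctx) (r s : RD) : Bool :=
  let O := lvOps X.on
  let u0 := ucell X r s false
  let u1 := ucell X r s true
  let v0 := ucell X s r false
  let v1 := ucell X s r true
  let R := rasm O X.V (rcell X r s) (rcell X s r)
  let ok := fun p => okP X.on X.gd (bern O p)
  let p00 := pasm O u0 v0 R
  let p01 := pasm O u0 v1 R
  let p10 := pasm O u1 v0 R
  let p11 := pasm O u1 v1 R
  -- `α ≥ β ≥ ζ`, `β ≥ α ≥ ζ`, `α ≥ ζ ≥ β`, `β ≥ ζ ≥ α`, `ζ ≥ α ≥ β`, `ζ ≥ β ≥ α`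
  and (and (and (ok p00) (ok (swapXY p00))) (and (ok (swapYZ p01)) (ok (swapYZ (swapXY p10)))))
    (and (ok (swapXY (swapYZ p11))) (ok (swapXY (swapYZ (swapXY p11)))))

/-- lower bound for `mu1`, on the tail -/
def loZ (I : Bool) (m : Z) : Z := cond I ⟨0, Nat.sub m.n m.p⟩ m

def hiZ (I : Bool) (m : Z) : Z := cond I ⟨Nat.sub m.p m.n, 0⟩ m

def muZ (I : Bool) (m : Z) : Z := cond I Z.zero m

/-- the tails: monotonicity in `y` for `|y| ≥ U + A` -/
def tailOk (X : Ctx) (r s : RD) : Bool :=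
  let I := adj X.C.A r.ii
  let J := adj X.C.A s.ii
  let m := Z.mul X.p.t3 (Z.add (muZ I r.R.mu2) (muZ J s.R.mu2))
  let Y : Z := ⟨Nat.mul 2 (Nat.add X.C.U X.C.A), 0⟩
  let pl : Z := ⟨Nat.mod X.C.ps b24, o23⟩
  let pr : Z := ⟨Nat.mod (Nat.shiftRight X.C.ps (Nat.mul 24 (Nat.mul 2 X.C.U))) b24, o23⟩
  let mY := Z.mul m Y
  and (Z.nonneg m)
    (and
      (Z.nonneg (Z.add (Z.add mY (Z.dbl (Z.mul X.p.te pr)))
        (Z.mul X.p.t1 (Z.add (loZ I r.R.mu1) (loZ J s.R.mu1)))))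
      (Z.nonneg (Z.sub (Z.sub mY (Z.dbl (Z.mul X.p.te pl)))
        (Z.mul X.p.t1 (Z.add (hiZ I r.R.mu1) (hiZ J s.R.mu1))))))

/-- the check of the cell `r` of `a` with a list of cells of `b` -/
def rowOk (X : Ctx) (r : RD) : List RD → Bool
  | [] => true
  | s :: l => and (cond (skip X.C.A r.ii s.ii) true (and (pairOk X r s) (tailOk X r s)))
      (rowOk X r l)

/-- check all pairs; `acc` is the list of the cells that have already been treated -/
def allOk (X : Ctx) : ℕ → List RD → List ARow → Bool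
  | _, _, [] => true
  | ii, acc, R :: l =>
    let r := mkRD X ii R
    let acc' := r :: acc
    and (rowOk X r acc') (allOk X (Nat.succ ii) acc' l)

/-- positivity of `M`, nonnegativity of `L` -/
def signOk : List ARow → Bool
  | [] => true
  | R :: l => and (and (and (Nat.blt R.M0.n R.M0.p) (Nat.blt R.M1.n R.M1.p))
      (and (Z.nonneg R.L0) (Z.nonneg R.L1))) (signOk l)

/-- the sizes are as they should be, and the parameters for which this is needed are nonnegative -/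
def sizeOk (C : Cert) : Bool :=
  and (and (and (Nat.beq (List.length C.rows) (Nat.mul 2 C.A)) (signOk C.rows))
      (and (Nat.ble 1 C.U) (Nat.ble C.U 1000)))
    (and (and (Nat.ble 1 C.A) (Nat.ble C.A 1000))
      (and (Nat.ble C.hm 16777215) (Nat.ble C.hp 16777215)))

/-- the whole check -/
def check (C : Cert) (p : Par) : Bool :=
  and (and (sizeOk C) (Z.nonneg p.t1)) (allOk (mkCtx C p) 0 [] C.rows)

end Pool.Agent.MMSChk
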