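import Mathlib

/-!
# Vectors of integers packed in one natural number

The lane width is `128` bits.  A vector `f 0, ..., f (L-1)` of integers with `|f c| ≤ o` is stored
as the number `∑ (f c + o) B ^ c`, where `B = 2 ^ 128`.
-/

set_option autoImplicit false

namespace Pool.Agent.MMSChk

/-- `2 ^ 128` -/
def B : ℕ := 340282366920938463463374607431768211456

theorem B_eq : B = 2 ^ 128 := by unfold B; norm_num

/-- integers as pairs of natural numbers -/
structure Z where
  /-- positive part -/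
  p : ℕ
  /-- negative part -/
  n : ℕ

namespace Z

/-- the integer -/
def v (a : Z) : ℤ := (a.p : ℤ) - a.n

def add (a b : Z) : Z := ⟨Nat.add a.p b.p, Nat.add a.n b.n⟩

def sub (a b : Z) : Z := ⟨Nat.add a.p b.n, Nat.add a.n b.p⟩

def mul (a b : Z) : Z :=
  ⟨Nat.add (Nat.mul a.p b.p) (Nat.mul a.n b.n), Nat.add (Nat.mul a.p b.n) (Nat.mul a.n b.p)⟩

def neg (a : Z) : Z := ⟨a.n, a.p⟩

def dbl (a : Z) : Z := ⟨Nat.mul 2 a.p, Nat.mul 2 a.n⟩

def zero : Z := ⟨0, 0⟩

def one : Z := ⟨1, 0⟩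

@[simp] theorem v_add (a b : Z) : (add a b).v = a.v + b.v := by
  simp only [add, v, Nat.add_eq, Nat.cast_add]; ring

@[simp] theorem v_sub (a b : Z) : (sub a b).v = a.v - b.v := by
  simp only [sub, v, Nat.add_eq, Nat.cast_add]; ring

@[simp] theorem v_mul (a b : Z) : (mul a b).v = a.v * b.v := by
  simp only [mul, v, Nat.add_eq, Nat.mul_eq, Nat.cast_add, Nat.cast_mul]; ring

@[simp] theorem v_neg (a : Z) : (neg a).v = -a.v := by
  simp only [neg, v]; ring

@[simp] theorem v_dbl (a : Z) : (dbl a).v = 2 * a.v := by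
  simp only [dbl, v, Nat.mul_eq, Nat.cast_mul, Nat.cast_ofNat]; ring

@[simp] theorem v_zero : zero.v = 0 := by simp [zero, v]

@[simp] theorem v_one : one.v = 1 := by simp [one, v]

/-- decides `0 ≤ a` -/
def nonneg (a : Z) : Bool := Nat.ble a.n a.p

theorem of_nonneg {a : Z} (h : a.nonneg = true) : 0 ≤ a.v := by
  have := Nat.le_of_ble_eq_true h
  unfold v
  omega

end Z

/-- a vector of lanes -/
structure LV where
  /-- the packed digits -/
  x : ℕ
  /-- the offset, which is also a bound for the entries -/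
  o : ℕ

/-- `∑_{c < L} B ^ c` -/
def ones (L : ℕ) : ℕ := Nat.div (Nat.sub (Nat.pow 2 (Nat.mul 128 L)) 1) (Nat.sub B 1)

theorem ones_eq (L : ℕ) : ones L = ∑ c ∈ Finset.range L, B ^ c := by
  unfold ones
  have h : (Nat.pow 2 (Nat.mul 128 L)) = B ^ L := by
    rw [B_eq, ← pow_mul]; rfl
  rw [h]
  have hB : 2 ≤ B := by rw [B_eq]; norm_num
  rw [Nat.geomSum_eq hB L]
  rfl

/-- the vector `v` represents the function `f` -/
def Rep (L : ℕ) (v : LV) (f : ℕ → ℤ) : Prop :=
  (v.x : ℤ) = ∑ c ∈ Finset.range L, (f c + v.o) * (B : ℤ) ^ c ∧ ∀ c < L, |f c| ≤ v.o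

namespace LV

def add (v w : LV) : LV := ⟨Nat.add v.x w.x, Nat.add v.o w.o⟩

def smul (s : ℕ) (v : LV) : LV := ⟨Nat.mul s v.x, Nat.mul s v.o⟩

/-- the negative, `on = ones L` -/
def neg (on : ℕ) (v : LV) : LV := ⟨Nat.sub (Nat.mul (Nat.mul 2 v.o) on) v.x, v.o⟩

def smulZ (on : ℕ) (s : Z) (v : LV) : LV :=
  cond (Nat.ble s.n s.p) (smul (Nat.sub s.p s.n) v) (smul (Nat.sub s.n s.p) (neg on v))

def zero : LV := ⟨0, 0⟩

/-- the test that all entries are nonnegative: `on = ones L`, `gd = 2 ^ 127 * on` -/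
def ok (on gd : ℕ) (v : LV) : Bool :=
  and (Nat.ble v.o 170141183460469231731687303715884105727)
    (Nat.beq (Nat.land (Nat.add v.x
      (Nat.mul (Nat.sub 170141183460469231731687303715884105728 v.o) on)) gd) gd)

/-- `L` lanes starting with the lane `s` -/
def win (s L : ℕ) (v : LV) : LV :=
  ⟨Nat.mod (Nat.shiftRight v.x (Nat.mul 128 s)) (Nat.pow 2 (Nat.mul 128 L)), v.o⟩

/-- multiply the lane `c` by `k + c` -/
def mulK : ℕ → ℕ → ℕ → ℕ
  | 0, _, _ => 0
  | n + 1, k, x => Nat.add (Nat.mul k (Nat.mod x B))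
      (Nat.mul B (mulK n (Nat.succ k) (Nat.shiftRight x 128)))

/-- `∑ c B ^ c`, shifted -/
def ramp (L s : ℕ) : ℕ := mulK L s (ones L)

/-- the vector `c ↦ (c - s) f c` with the offset `t o`, where `L ≤ t` and `s ≤ t` -/
def idx (L on s t : ℕ) (v : LV) : LV :=
  ⟨Nat.sub (Nat.add (mulK L 0 v.x) (Nat.mul (Nat.mul (Nat.add s t) v.o) on))
    (Nat.add (Nat.mul v.o (ramp L 0)) (Nat.mul s v.x)), Nat.mul t v.o⟩

end LV

/-! ### closure of `Rep` -/

namespace Rep

variable {L : ℕ} {v w : LV} {f g : ℕ → ℤ}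

theorem congr (h : Rep L v f) (he : ∀ c < L, f c = g c) : Rep L v g := by
  refine ⟨?_, fun c hc => ?_⟩
  · rw [h.1]
    refine Finset.sum_congr rfl fun c hc => ?_
    rw [he c (Finset.mem_range.1 hc)]
  · rw [← he c hc]; exact h.2 c hc

theorem zero : Rep L LV.zero (fun _ => 0) := by
  refine ⟨?_, fun c _ => ?_⟩
  · simp [LV.zero]
  · simp [LV.zero]

theorem add (hv : Rep L v f) (hw : Rep L w g) : Rep L (LV.add v w) (fun c => f c + g c) := by
  refine ⟨?_, fun c hc => ?_⟩
  · simp only [LV.add, Nat.add_eq, Nat.cast_add]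
    rw [hv.1, hw.1, ← Finset.sum_add_distrib]
    refine Finset.sum_congr rfl fun c _ => ?_
    ring
  · simp only [LV.add, Nat.add_eq, Nat.cast_add]
    exact (abs_add_le _ _).trans (add_le_add (hv.2 c hc) (hw.2 c hc))

theorem smul (s : ℕ) (hv : Rep L v f) : Rep L (LV.smul s v) (fun c => s * f c) := by
  refine ⟨?_, fun c hc => ?_⟩
  · simp only [LV.smul, Nat.mul_eq, Nat.cast_mul]
    rw [hv.1, Finset.mul_sum]
    refine Finset.sum_congr rfl fun c _ => ?_
    ring
  · simp only [LV.smul, Nat.mul_eq, Nat.cast_mul]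
    rw [abs_mul, Nat.abs_cast]
    exact mul_le_mul_of_nonneg_left (hv.2 c hc) (Nat.cast_nonneg s)

theorem ones_cast : ((ones L : ℕ) : ℤ) = ∑ c ∈ Finset.range L, (B : ℤ) ^ c := by
  rw [ones_eq]; push_cast; rfl

theorem neg (hv : Rep L v f) : Rep L (LV.neg (ones L) v) (fun c => -f c) := by
  refine ⟨?_, fun c hc => ?_⟩
  · have h1 : (v.x : ℤ) ≤ ((2 * v.o * ones L : ℕ) : ℤ) := by
      rw [hv.1]
      push_cast
      rw [ones_cast, Finset.mul_sum]
      refine Finset.sum_le_sum fun c hc => ?_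
      have := (abs_le.1 (hv.2 c (Finset.mem_range.1 hc))).2
      have hB : (0 : ℤ) ≤ (B : ℤ) ^ c := by positivity
      nlinarith
    have h2 : v.x ≤ 2 * v.o * ones L := by exact_mod_cast h1
    simp only [LV.neg, Nat.mul_eq, Nat.sub_eq]
    rw [Nat.cast_sub h2, hv.1]
    push_cast
    rw [ones_cast, Finset.mul_sum, ← Finset.sum_sub_distrib]
    refine Finset.sum_congr rfl fun c _ => ?_
    ring
  · simp only [LV.neg]
    rw [abs_neg]; exact hv.2 c hc

theorem smulZ (s : Z) (hv : Rep L v f) :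
    Rep L (LV.smulZ (ones L) s v) (fun c => s.v * f c) := by
  unfold LV.smulZ
  rcases h : Nat.ble s.n s.p with _ | _
  · simp only [cond_false]
    have hle : s.p ≤ s.n := by
      by_contra hc
      push Not at hc
      have : Nat.ble s.n s.p = true := Nat.ble_eq_true_of_le hc.le
      rw [this] at h; exact absurd h (by decide)
    refine (Rep.smul _ hv.neg).congr fun c _ => ?_
    simp only [Nat.sub_eq, Z.v]
    rw [Nat.cast_sub hle]; ring
  · simp only [cond_true]
    have hle : s.n ≤ s.p := Nat.le_of_ble_eq_true h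
    refine (Rep.smul _ hv).congr fun c _ => ?_
    simp only [Nat.sub_eq, Z.v]
    rw [Nat.cast_sub hle]

end Rep

/-! ### digits -/

theorem B_pos : 0 < B := by rw [B_eq]; positivity

/-- a sum of digits -/
theorem sum_digits_lt {d : ℕ → ℕ} (L : ℕ) (hd : ∀ c < L, d c < B) :
    ∑ c ∈ Finset.range L, d c * B ^ c < B ^ L := by
  induction L with
  | zero => simp
  | succ L ih =>
    rw [Finset.sum_range_succ, pow_succ]
    have h1 := ih fun c hc => hd c (by omega)
    have h2 := hd L (by omega)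
    have h3 : d L * B ^ L ≤ (B - 1) * B ^ L := Nat.mul_le_mul_right _ (by omega)
    have h4 : (B - 1) * B ^ L + B ^ L = B ^ L * B := by
      have : B - 1 + 1 = B := Nat.sub_add_cancel B_pos
      calc (B - 1) * B ^ L + B ^ L = (B - 1 + 1) * B ^ L := by ring
        _ = B ^ L * B := by rw [this]; ring
    omega

theorem sum_digits_div {d : ℕ → ℕ} (L s : ℕ) (hd : ∀ c < s + L, d c < B) :
    (∑ c ∈ Finset.range (s + L), d c * B ^ c) / B ^ s =
      ∑ c ∈ Finset.range L, d (s + c) * B ^ c := by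
  have hlt := sum_digits_lt (d := d) s fun c hc => hd c (by omega)
  have hp : 0 < B ^ s := pow_pos B_pos s
  rw [Finset.sum_range_add]
  have h1 : ∑ c ∈ Finset.range L, d (s + c) * B ^ (s + c) =
      B ^ s * ∑ c ∈ Finset.range L, d (s + c) * B ^ c := by
    rw [Finset.mul_sum]
    refine Finset.sum_congr rfl fun c _ => ?_
    rw [pow_add]; ring
  rw [h1, Nat.add_mul_div_left _ _ hp, Nat.div_eq_of_lt hlt, zero_add]

theorem sum_digits_mod {d : ℕ → ℕ} (L s : ℕ) (hd : ∀ c < L + s, d c < B) :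
    (∑ c ∈ Finset.range (L + s), d c * B ^ c) % B ^ L = ∑ c ∈ Finset.range L, d c * B ^ c := by
  have hlt := sum_digits_lt (d := d) L fun c hc => hd c (by omega)
  rw [Finset.sum_range_add]
  have h1 : ∑ c ∈ Finset.range s, d (L + c) * B ^ (L + c) =
      B ^ L * ∑ c ∈ Finset.range s, d (L + c) * B ^ c := by
    rw [Finset.mul_sum]
    refine Finset.sum_congr rfl fun c _ => ?_
    rw [pow_add]; ring
  rw [h1, Nat.add_mul_mod_self_left, Nat.mod_eq_of_lt hlt]

/-- the digit of a sum -/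
theorem digit_of_sum {d : ℕ → ℕ} (L c : ℕ) (hc : c < L) (hd : ∀ c < L, d c < B) :
    (∑ c ∈ Finset.range L, d c * B ^ c) / B ^ c % B = d c := by
  obtain ⟨t, rfl⟩ : ∃ t, L = c + (1 + t) := ⟨L - c - 1, by omega⟩
  rw [sum_digits_div _ _ hd]
  have := sum_digits_mod (d := fun k => d (c + k)) 1 t fun k hk => hd _ (by omega)
  simpa using this

theorem testBit_digit {d : ℕ → ℕ} (L c : ℕ) (hc : c < L) (hd : ∀ c < L, d c < B) :
    (∑ c ∈ Finset.range L, d c * B ^ c).testBit (128 * c + 127) = (d c).testBit 127 := by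
  have h := digit_of_sum L c hc hd
  rw [← h, B_eq, ← pow_mul, Nat.testBit_mod_two_pow, Nat.testBit_div_two_pow]
  simp [Nat.add_comm]

theorem Rep.of_ok {L : ℕ} {v : LV} {f : ℕ → ℤ} (hv : Rep L v f)
    (h : LV.ok (ones L) (Nat.mul 170141183460469231731687303715884105728 (ones L)) v = true) :
    ∀ c < L, 0 ≤ f c := by
  intro c hc
  have hH : (170141183460469231731687303715884105728 : ℕ) = 2 ^ 127 := by norm_num
  have hBH : B = 2 ^ 127 * 2 := by rw [B_eq]; norm_num
  simp only [LV.ok, Nat.mul_eq, Nat.add_eq, Nat.sub_eq, Bool.and_eq_true, Nat.ble_eq] at h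
  obtain ⟨ho, hl⟩ := h
  have hl := Nat.eq_of_beq_eq_true hl
  rw [hH] at hl
  have ho : v.o < 2 ^ 127 := by
    rw [← hH]; omega
  -- the digits
  set d : ℕ → ℕ := fun c => (f c + 2 ^ 127).toNat with hd
  have hdd : ∀ c < L, ((d c : ℕ) : ℤ) = f c + 2 ^ 127 := by
    intro c hc
    have := abs_le.1 (hv.2 c hc)
    have ho' : (v.o : ℤ) < 2 ^ 127 := by exact_mod_cast ho
    rw [hd]
    simp only
    rw [Int.toNat_of_nonneg (by linarith)]
  have hdB : ∀ c < L, d c < B := by
    intro c hc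
    have := abs_le.1 (hv.2 c hc)
    have ho' : (v.o : ℤ) < 2 ^ 127 := by exact_mod_cast ho
    have h1 := hdd c hc
    have : ((d c : ℕ) : ℤ) < (B : ℕ) := by
      rw [h1, hBH]; push_cast; linarith
    exact_mod_cast this
  have hsum : v.x + (2 ^ 127 - v.o) * ones L = ∑ c ∈ Finset.range L, d c * B ^ c := by
    obtain ⟨m, hm⟩ : ∃ m, m = 2 ^ 127 - v.o := ⟨_, rfl⟩
    rw [← hm]
    have hm2 : (m : ℤ) = 2 ^ 127 - v.o := by
      rw [hm, Nat.cast_sub ho.le, Nat.cast_pow, Nat.cast_ofNat]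
    have : ((v.x + m * ones L : ℕ) : ℤ) =
        ((∑ c ∈ Finset.range L, d c * B ^ c : ℕ) : ℤ) := by
      rw [Nat.cast_add, Nat.cast_mul, Nat.cast_sum, hv.1, Rep.ones_cast, Finset.mul_sum,
        ← Finset.sum_add_distrib]
      refine Finset.sum_congr rfl fun c hc => ?_
      rw [Nat.cast_mul, hdd c (Finset.mem_range.1 hc), Nat.cast_pow, hm2]
      ring
    exact_mod_cast this
  have hg : 2 ^ 127 * ones L = ∑ c ∈ Finset.range L, 2 ^ 127 * B ^ c := by
    rw [ones_eq, Finset.mul_sum]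
  have hb1 : (2 ^ 127 * ones L).testBit (128 * c + 127) = true := by
    rw [hg, testBit_digit (d := fun _ => 2 ^ 127) L c hc fun c _ => by rw [hBH]; norm_num]
    exact Nat.testBit_two_pow_self
  have hb2 : (Nat.land (v.x + (2 ^ 127 - v.o) * ones L) (2 ^ 127 * ones L)).testBit
      (128 * c + 127) = true := by rw [hl]; exact hb1
  have hb3 : (v.x + (2 ^ 127 - v.o) * ones L).testBit (128 * c + 127) = true := by
    have e : Nat.land (v.x + (2 ^ 127 - v.o) * ones L) (2 ^ 127 * ones L) =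
      (v.x + (2 ^ 127 - v.o) * ones L) &&& (2 ^ 127 * ones L) := rfl
    rw [e, Nat.testBit_and, hb1, Bool.and_true] at hb2
    exact hb2
  rw [hsum, testBit_digit L c hc hdB] at hb3
  have hge : 2 ^ 127 ≤ d c := Nat.ge_two_pow_of_testBit hb3
  have h1 := hdd c hc
  have : ((2 ^ 127 : ℕ) : ℤ) ≤ (d c : ℕ) := by exact_mod_cast hge
  push_cast at this
  linarith

end Pool.Agent.MMSChk
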