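import Pool.Agent.MMSChk.Lanes

set_option autoImplicit false

namespace Pool.Agent.MMSChk

/-- the digits of a represented vector -/
theorem Rep.digits {L : ℕ} {v : LV} {f : ℕ → ℤ} (hv : Rep L v f) :
    ∃ d : ℕ → ℕ, (∀ c < L, ((d c : ℕ) : ℤ) = f c + v.o) ∧ (∀ c < L, d c ≤ 2 * v.o) ∧
      v.x = ∑ c ∈ Finset.range L, d c * B ^ c := by
  refine ⟨fun c => (f c + v.o).toNat, fun c hc => ?_, fun c hc => ?_, ?_⟩
  · have := abs_le.1 (hv.2 c hc)
    exact Int.toNat_of_nonneg (by linarith)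
  · have := abs_le.1 (hv.2 c hc)
    show (f c + v.o).toNat ≤ 2 * v.o
    omega
  · have : ((v.x : ℕ) : ℤ) = ((∑ c ∈ Finset.range L, (f c + v.o).toNat * B ^ c : ℕ) : ℤ) := by
      rw [hv.1, Nat.cast_sum]
      refine Finset.sum_congr rfl fun c hc => ?_
      have := abs_le.1 (hv.2 c (Finset.mem_range.1 hc))
      rw [Nat.cast_mul, Int.toNat_of_nonneg (by linarith), Nat.cast_pow]
    exact_mod_cast this

theorem Rep.of_digits {L : ℕ} {v : LV} {f : ℕ → ℤ} {d : ℕ → ℕ}
    (h1 : ∀ c < L, ((d c : ℕ) : ℤ) = f c + v.o) (h2 : v.x = ∑ c ∈ Finset.range L, d c * B ^ c)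
    (h3 : ∀ c < L, |f c| ≤ v.o) : Rep L v f := by
  refine ⟨?_, h3⟩
  rw [h2, Nat.cast_sum]
  refine Finset.sum_congr rfl fun c hc => ?_
  rw [Nat.cast_mul, h1 c (Finset.mem_range.1 hc), Nat.cast_pow]

/-- a window -/
theorem Rep.win {M L s : ℕ} {v : LV} {f : ℕ → ℤ} (hv : Rep M v f) (hs : s + L ≤ M)
    (ho : 2 * v.o < B) : Rep L (LV.win s L v) (fun c => f (s + c)) := by
  obtain ⟨d, h1, h2, h3⟩ := hv.digits
  have hd : ∀ c < M, d c < B := fun c hc => lt_of_le_of_lt (h2 c hc) ho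
  refine Rep.of_digits (d := fun c => d (s + c)) (fun c hc => ?_) ?_ (fun c hc => ?_)
  · exact h1 (s + c) (by omega)
  · obtain ⟨t, rfl⟩ : ∃ t, M = s + (L + t) := ⟨M - s - L, by omega⟩
    simp only [LV.win]
    have e1 : Nat.shiftRight v.x (Nat.mul 128 s) = v.x / B ^ s := by
      rw [B_eq, ← pow_mul]
      exact Nat.shiftRight_eq_div_pow _ _
    have e2 : Nat.pow 2 (Nat.mul 128 L) = B ^ L := by
      rw [B_eq, ← pow_mul]; rfl
    have e3 : ∀ a b, Nat.mod a b = a % b := fun _ _ => rfl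
    rw [e1, e2, e3, h3, sum_digits_div _ _ hd]
    exact sum_digits_mod (d := fun c => d (s + c)) L t fun c hc => hd _ (by omega)
  · exact hv.2 (s + c) (by omega)

theorem mulK_eq (n : ℕ) : ∀ (k : ℕ) (d : ℕ → ℕ), (∀ c < n, d c < B) →
    LV.mulK n k (∑ c ∈ Finset.range n, d c * B ^ c) =
      ∑ c ∈ Finset.range n, ((k + c) * d c) * B ^ c := by
  induction n with
  | zero => intro k d _; simp [LV.mulK]
  | succ n ih =>
    intro k d hd
    have e1 : ∀ a b, Nat.mod a b = a % b := fun _ _ => rfl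
    have e2 : ∀ a, Nat.shiftRight a 128 = a / B := fun a => by
      rw [B_eq]; exact Nat.shiftRight_eq_div_pow _ _
    have h0 : (∑ c ∈ Finset.range (n + 1), d c * B ^ c) % B = d 0 := by
      have := digit_of_sum (n + 1) 0 (by omega) hd
      simpa using this
    have h1 : (∑ c ∈ Finset.range (n + 1), d c * B ^ c) / B =
        ∑ c ∈ Finset.range n, d (1 + c) * B ^ c := by
      have := sum_digits_div (d := d) n 1 (by rw [Nat.add_comm]; exact hd)
      rw [pow_one, Nat.add_comm 1 n] at this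
      exact this
    simp only [LV.mulK, e1, e2]
    rw [h0, h1, ih (Nat.succ k) (fun c => d (1 + c)) fun c hc => hd _ (by omega),
      Finset.sum_range_succ']
    simp only [Nat.add_eq, Nat.mul_eq, Finset.mul_sum, pow_zero, mul_one, add_zero]
    rw [Nat.add_comm]
    congr 1
    refine Finset.sum_congr rfl fun c _ => ?_
    rw [pow_succ, Nat.succ_eq_add_one, Nat.add_comm 1 c]
    ring

theorem one_lt_B : 1 < B := by rw [B_eq]; norm_num

theorem ramp_eq (L s : ℕ) : LV.ramp L s = ∑ c ∈ Finset.range L, (s + c) * B ^ c := by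
  unfold LV.ramp
  have h := mulK_eq L s (fun _ => 1) fun _ _ => one_lt_B
  rw [ones_eq]
  simpa using h

/-- the vector `c ↦ (c - s) f c` -/
theorem Rep.idx {L s t : ℕ} {v : LV} {f : ℕ → ℤ} (hv : Rep L v f) (ho : 2 * v.o < B)
    (hL : L ≤ t) (hs : s ≤ t) :
    Rep L (LV.idx L (ones L) s t v) (fun c => ((c : ℤ) - s) * f c) := by
  obtain ⟨d, h1, h2, h3⟩ := hv.digits
  have hd : ∀ c < L, d c < B := fun c hc => lt_of_le_of_lt (h2 c hc) ho
  have hb : ∀ c < L, |((c : ℤ) - s) * f c| ≤ (t * v.o : ℕ) := by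
    intro c hc
    rw [abs_mul]
    push_cast
    refine mul_le_mul ?_ (hv.2 c hc) (abs_nonneg _) (Nat.cast_nonneg t)
    rw [abs_le]
    constructor <;> omega
  refine ⟨?_, hb⟩
  have hx : (LV.mulK L 0 v.x) = ∑ c ∈ Finset.range L, (c * d c) * B ^ c := by
    rw [h3, mulK_eq L 0 d hd]
    simp
  have hr := ramp_eq L 0
  simp only [zero_add] at hr
  -- everything as integers
  have key : ((LV.mulK L 0 v.x + (s + t) * v.o * ones L : ℕ) : ℤ) -
      ((v.o * LV.ramp L 0 + s * v.x : ℕ) : ℤ) =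
      ∑ c ∈ Finset.range L, (((c : ℤ) - s) * f c + (t * v.o : ℕ)) * (B : ℤ) ^ c := by
    rw [hx, hr, ones_eq]
    nth_rewrite 1 [h3]
    push_cast
    simp only [Finset.mul_sum]
    rw [← Finset.sum_add_distrib, ← Finset.sum_add_distrib, ← Finset.sum_sub_distrib]
    refine Finset.sum_congr rfl fun c hc => ?_
    rw [h1 c (Finset.mem_range.1 hc)]
    ring
  have hnn : (0 : ℤ) ≤ ∑ c ∈ Finset.range L,
      (((c : ℤ) - s) * f c + (t * v.o : ℕ)) * (B : ℤ) ^ c := by
    refine Finset.sum_nonneg fun c hc => mul_nonneg ?_ (by positivity)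
    have := (abs_le.1 (hb c (Finset.mem_range.1 hc))).1
    linarith
  have hle : (v.o * LV.ramp L 0 + s * v.x) ≤ LV.mulK L 0 v.x + (s + t) * v.o * ones L := by
    have : ((v.o * LV.ramp L 0 + s * v.x : ℕ) : ℤ) ≤
        ((LV.mulK L 0 v.x + (s + t) * v.o * ones L : ℕ) : ℤ) := by linarith
    exact_mod_cast this
  simp only [LV.idx, Nat.add_eq, Nat.mul_eq, Nat.sub_eq]
  rw [Nat.cast_sub hle, key]

end Pool.Agent.MMSChk
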