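import Pool.Agent.MMSChk.Transfer

/-!
# The check of a pair of cells, over the integers
-/

set_option autoImplicit false

namespace Pool.Agent.MMSChk

theorem evalP_swapXY (p : P20 ℤ) (x y z : ℝ) : evalP (swapXY p) x y z = evalP p y x z := by
  simp only [evalP, swapXY]
  ring

theorem evalP_swapYZ (p : P20 ℤ) (x y z : ℝ) : evalP (swapYZ p) x y z = evalP p x z y := by
  simp only [evalP, swapYZ]
  ring

theorem ucell_rep {C : Cert} {p : Par} (h : sizeOk C = true) {ii jj : ℕ} (hi : ii < 2 * C.A)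
    (R S : ARow) (t : Bool) :
    RepP (nl C) (ucell (mkCtx C p) (mkRD (mkCtx C p) ii R) (mkRD (mkCtx C p) jj S) t)
      (uZ C p ii jj R S t) := by
  have hw := mkWD_rep h hi t
  have hg := mkG_rep h hi t R.G R.Ga R.Gs
  have hh := mkG_rep h hi t S.H S.Ha S.Hs
  have key := ufull_rep (p := p) (Q := ⟨Nat.mul C.A C.A, 0⟩) (i := ⟨ii, C.A⟩) (j := ⟨jj, C.A⟩)
    (I := adj C.A ii) (J := adj C.A jj) (r := R) (s := S) hw hg hh
  cases t
  · exact key
  · exact key

theorem rasm_cell_rep {C : Cert} {p : Par} (h : sizeOk C = true) {ii jj : ℕ} (R S : ARow) :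
    RepP (nl C) (rasm (lvOps (ones (nl C))) (mkCtx C p).V
      (rcell (mkCtx C p) (mkRD (mkCtx C p) ii R) (mkRD (mkCtx C p) jj S))
      (rcell (mkCtx C p) (mkRD (mkCtx C p) jj S) (mkRD (mkCtx C p) ii R)))
      (fun c => rasm intOps (cvZ C c) (rpZ C p ii jj R) (rpZ C p jj ii S)) :=
  rasm_rep (mkV_rep h p)

/-- what the check of a pair of cells means -/
structure PairZ (C : Cert) (p : Par) (ii jj : ℕ) (R S : ARow) (c : ℕ) : Prop where
  o1 : (bern intOps (cellZ C p ii jj R S false false c)).Nonneg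
  o2 : (bern intOps (swapXY (cellZ C p ii jj R S false false c))).Nonneg
  o3 : (bern intOps (swapYZ (cellZ C p ii jj R S false true c))).Nonneg
  o4 : (bern intOps (swapYZ (swapXY (cellZ C p ii jj R S true false c)))).Nonneg
  o5 : (bern intOps (swapXY (swapYZ (cellZ C p ii jj R S true true c)))).Nonneg
  o6 : (bern intOps (swapXY (swapYZ (swapXY (cellZ C p ii jj R S true true c))))).Nonneg

theorem pairOk_sound {C : Cert} {p : Par} (h : sizeOk C = true) {ii jj : ℕ}
    (hi : ii < 2 * C.A) (hj : jj < 2 * C.A) {R S : ARow}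
    (hk : pairOk (mkCtx C p) (mkRD (mkCtx C p) ii R) (mkRD (mkCtx C p) jj S) = true) {c : ℕ}
    (hc : c < nl C) : PairZ C p ii jj R S c := by
  have hu := fun t => ucell_rep (p := p) (jj := jj) h hi R S t
  have hv := fun t => ucell_rep (p := p) (jj := ii) h hj S R t
  have hr := rasm_cell_rep (p := p) (ii := ii) (jj := jj) h R S
  have hp := fun t t' => pasm_rep (hu t) (hv t') hr
  unfold pairOk at hk
  simp only [Bool.and_eq_true] at hk
  obtain ⟨⟨⟨h1, h2⟩, h3, h4⟩, h5, h6⟩ := hk
  exact
  { o1 := okP_rep (bern_rep (hp false false)) h1 c hc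
    o2 := okP_rep (bern_rep (swapXY_rep (hp false false))) h2 c hc
    o3 := okP_rep (bern_rep (swapYZ_rep (hp false true))) h3 c hc
    o4 := okP_rep (bern_rep (swapYZ_rep (swapXY_rep (hp true false)))) h4 c hc
    o5 := okP_rep (bern_rep (swapXY_rep (swapYZ_rep (hp true true)))) h5 c hc
    o6 := okP_rep (bern_rep (swapXY_rep (swapYZ_rep (swapXY_rep (hp true true))))) h6 c hc }

/-- the cell polynomials are nonnegative -/
theorem PairZ.evalP_nonneg {C : Cert} {p : Par} {ii jj : ℕ} {R S : ARow} {c : ℕ}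
    (h : PairZ C p ii jj R S c) {α β ζ : ℝ} (a0 : 0 ≤ α) (a1 : α ≤ 1) (b0 : 0 ≤ β) (b1 : β ≤ 1)
    (z0 : 0 ≤ ζ) (z1 : ζ ≤ 1) {ta tb : Bool} (hta : ta = true ↔ α < ζ)
    (htb : tb = true ↔ β < ζ) : 0 ≤ evalP (cellZ C p ii jj R S ta tb c) α β ζ := by
  rcases lt_or_ge α ζ with ha | ha
  · have e1 : ta = true := hta.2 ha
    subst e1
    rcases lt_or_ge β ζ with hb | hb
    · have e2 : tb = true := htb.2 hb
      subst e2
      rcases le_total β α with hab | hab
      · have := bern_nonneg h.o5 z1 ha.le hab b0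
        rwa [evalP_swapXY, evalP_swapYZ] at this
      · have := bern_nonneg h.o6 z1 hb.le hab a0
        rwa [evalP_swapXY, evalP_swapYZ, evalP_swapXY] at this
    · have e2 : tb = false := by
        cases tb
        · rfl
        · exact absurd (htb.1 rfl) (not_lt.2 hb)
      subst e2
      have := bern_nonneg h.o4 b1 hb ha.le a0
      rwa [evalP_swapYZ, evalP_swapXY] at this
  · have e1 : ta = false := by
      cases ta
      · rfl
      · exact absurd (hta.1 rfl) (not_lt.2 ha)
    subst e1
    rcases lt_or_ge β ζ with hb | hb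
    · have e2 : tb = true := htb.2 hb
      subst e2
      have := bern_nonneg h.o3 a1 ha hb.le b0
      rwa [evalP_swapYZ] at this
    · have e2 : tb = false := by
        cases tb
        · rfl
        · exact absurd (htb.1 rfl) (not_lt.2 hb)
      subst e2
      rcases le_total β α with hab | hab
      · exact bern_nonneg h.o1 a1 hab hb z0
      · have := bern_nonneg h.o2 b1 hab ha z0
        rwa [evalP_swapXY] at this

end Pool.Agent.MMSChk
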