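import Pool.Agent.MMSChk.Lanes2
import Pool.Agent.MMSChk.Real

/-!
# The meaning of the tables and windows

PLAN.
* `unpack_eq`: by induction on `n` (`Nat.shiftRight_add`), digits are `Nat.mod _ b24`, so `< 2 ^ 24`.
* `tbl_rep`: the three parts of the sum; `Rep.of_digits` with `d k = lo`, the digit, `hi`.
* windows: `Rep.win`, `Rep.idx`, `Rep.add`, `Rep.neg`; the bounds `2 * o < B` hold since the offsets
  are at most `2 ^ 24 * (lt C) ^ 2` and `lt C ≤ 6100`.
* a lane `c` of a window that starts at `s` is the table entry `s + c`; the table entry `k`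
  belongs to the node or cell `k - (U + P)`, `P = 2 A + 1`.
-/

set_option autoImplicit false

namespace Pool.Agent.MMSChk

/-- the tables -/
def tf (n P x lo hi k : ℕ) : ℤ :=
  if k < P then (lo : ℤ) - o23 else if k < P + n then dg x (k - P) else (hi : ℤ) - o23

theorem unpack_eq (n x : ℕ) : unpack n x =
    ∑ k ∈ Finset.range n, (Nat.mod (Nat.shiftRight x (24 * k)) b24) * B ^ k := by
  induction n generalizing x with
  | zero => simp [unpack]
  | succ n ih =>
    have hs : ∀ k, Nat.shiftRight (Nat.shiftRight x 24) (24 * k) =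
        Nat.shiftRight x (24 * (k + 1)) := by
      intro k
      have : Nat.shiftRight (Nat.shiftRight x 24) (24 * k) = (x >>> 24) >>> (24 * k) := rfl
      rw [this, ← Nat.shiftRight_add, show 24 + 24 * k = 24 * (k + 1) by ring]
      rfl
    have h0 : Nat.shiftRight x (24 * 0) = x := rfl
    rw [Finset.sum_range_succ', pow_zero, mul_one, h0]
    show Nat.mod x b24 + B * unpack n (Nat.shiftRight x 24) = _
    rw [ih, Finset.mul_sum, Nat.add_comm]
    congr 1
    refine Finset.sum_congr rfl fun k _ => ?_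
    rw [hs, pow_succ]
    ring

theorem tbl_rep {n P x lo hi : ℕ} (hlo : lo < b24) (hhi : hi < b24) :
    Rep (P + n + P) (tbl n P x lo hi) (tf n P x lo hi) := by
  have hb : b24 = 2 * o23 := rfl
  have hm : ∀ a, Nat.mod a b24 < b24 := fun a => Nat.mod_lt a (by unfold b24; norm_num)
  have hP : Nat.pow 2 (Nat.mul 128 P) = B ^ P := by rw [B_eq, ← pow_mul]; rfl
  have hn : Nat.pow 2 (Nat.mul 128 n) = B ^ n := by rw [B_eq, ← pow_mul]; rfl
  refine Rep.of_digits
    (d := fun k => if k < P then lo else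
      if k < P + n then Nat.mod (Nat.shiftRight x (24 * (k - P))) b24 else hi)
    (fun c _ => ?_) ?_ (fun c _ => ?_)
  · simp only [tf, tbl, dg]
    split_ifs <;> simp
  · simp only [tbl, Nat.add_eq, Nat.mul_eq]
    have hP' : 2 ^ (128 * P) = B ^ P := by rw [B_eq, ← pow_mul]
    have hn' : 2 ^ (128 * n) = B ^ n := by rw [B_eq, ← pow_mul]
    have e1 : (Nat.pow 2 (128 * P)) = B ^ P := hP
    have e2 : (Nat.pow 2 (128 * n)) = B ^ n := hn
    rw [e1, e2, unpack_eq, ones_eq, Nat.add_assoc, Finset.sum_range_add, Finset.sum_range_add]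
    have h1 : ∑ k ∈ Finset.range P, (if k < P then lo else
        if k < P + n then Nat.mod (Nat.shiftRight x (24 * (k - P))) b24 else hi) * B ^ k =
        lo * ∑ k ∈ Finset.range P, B ^ k := by
      rw [Finset.mul_sum]
      refine Finset.sum_congr rfl fun k hk => ?_
      rw [if_pos (Finset.mem_range.1 hk)]
    have h2 : ∑ k ∈ Finset.range n, (if P + k < P then lo else
        if P + k < P + n then Nat.mod (Nat.shiftRight x (24 * (P + k - P))) b24 else hi) *
          B ^ (P + k) =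
        B ^ P * ∑ k ∈ Finset.range n, (Nat.mod (Nat.shiftRight x (24 * k)) b24) * B ^ k := by
      rw [Finset.mul_sum]
      refine Finset.sum_congr rfl fun k hk => ?_
      have hk' := Finset.mem_range.1 hk
      rw [if_neg (by omega), if_pos (by omega), Nat.add_sub_cancel_left, pow_add]
      ring
    have h3 : ∑ k ∈ Finset.range P, (if P + (n + k) < P then lo else
        if P + (n + k) < P + n then Nat.mod (Nat.shiftRight x (24 * (P + (n + k) - P))) b24
          else hi) * B ^ (P + (n + k)) =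
        B ^ P * (B ^ n * (hi * ∑ k ∈ Finset.range P, B ^ k)) := by
      rw [Finset.mul_sum, Finset.mul_sum, Finset.mul_sum]
      refine Finset.sum_congr rfl fun k hk => ?_
      rw [if_neg (by omega), if_neg (by omega), pow_add, pow_add]
      ring
    rw [h1, h2, h3]
    ring
  · show |tf n P x lo hi c| ≤ ((o23 : ℕ) : ℤ)
    unfold tf dg
    have := hm (Nat.shiftRight x (24 * (c - P)))
    have ho : ((o23 : ℕ) : ℤ) = 8388608 := rfl
    have hb' : ((b24 : ℕ) : ℤ) = 16777216 := rfl
    split_ifs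
    · rw [abs_le]; constructor <;> omega
    · rw [abs_le]; constructor <;> omega
    · rw [abs_le]; constructor <;> omega

/-- the node `i + c` that belongs to the lane `c` of the windows with the index `ii` -/
def eN (C : Cert) (ii c : ℕ) : ℤ := ((ii : ℤ) - C.A) + ((c : ℤ) - (C.U + C.A))

/-- the cell of `u` -/
def mN (C : Cert) (ii c : ℕ) (t : Bool) : ℤ := if t then eN C ii c - 1 else eN C ii c

/-- the values in the windows -/
def wdZ (C : Cert) (ii : ℕ) (t : Bool) (c : ℕ) : WD ℤ :=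
  let e := eN C ii c
  let m := mN C ii c t
  let D := if t then psN C (m + 1) - psN C m - pcN C m else psN C (m + 1) - psN C m + pcN C m
  { p0 := psN C e
    ep := e * psN C e
    D := D
    eD := e * D
    C := pcN C m
    eC := e * pcN C m
    h0 := if t then hrN C m else hlN C m
    h1 := hrN C m - hlN C m
    w1 := if 0 ≤ m then 1 else 0
    s3 := s3N C m
    e1 := e * s3N C m
    e2 := e ^ 2 * s3N C m }

/-- the values in the windows of `G` or `H`; `x, xa, xs` are the packed lists -/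
def gdZ (C : Cert) (x xa xs ii : ℕ) (t : Bool) (c : ℕ) : GD ℤ :=
  let e := eN C ii c
  let m := mN C ii c t
  let g := if t then cellF C.U x o23 o23 m + cellF C.U xs o23 o23 m else cellF C.U x o23 o23 m
  { g0 := g
    ga := cellF C.U xa o23 o23 m
    gs := cellF C.U xs o23 o23 m
    e0 := e * g
    ea := e * cellF C.U xa o23 o23 m
    es := e * cellF C.U xs o23 o23 m }

structure RepWD (n : ℕ) (w : WD LV) (f : ℕ → WD ℤ) : Prop where
  p0 : Rep n w.p0 (fun c => (f c).p0)
  ep : Rep n w.ep (fun c => (f c).ep)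
  D : Rep n w.D (fun c => (f c).D)
  eD : Rep n w.eD (fun c => (f c).eD)
  C : Rep n w.C (fun c => (f c).C)
  eC : Rep n w.eC (fun c => (f c).eC)
  h0 : Rep n w.h0 (fun c => (f c).h0)
  h1 : Rep n w.h1 (fun c => (f c).h1)
  w1 : Rep n w.w1 (fun c => (f c).w1)
  s3 : Rep n w.s3 (fun c => (f c).s3)
  e1 : Rep n w.e1 (fun c => (f c).e1)
  e2 : Rep n w.e2 (fun c => (f c).e2)

structure RepGD (n : ℕ) (w : GD LV) (f : ℕ → GD ℤ) : Prop where
  g0 : Rep n w.g0 (fun c => (f c).g0)
  ga : Rep n w.ga (fun c => (f c).ga)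
  gs : Rep n w.gs (fun c => (f c).gs)
  e0 : Rep n w.e0 (fun c => (f c).e0)
  ea : Rep n w.ea (fun c => (f c).ea)
  es : Rep n w.es (fun c => (f c).es)

structure RepCV (n : ℕ) (w : CV LV) (f : ℕ → CV ℤ) : Prop where
  l1 : Rep n w.l1 (fun c => (f c).l1)
  lc : Rep n w.lc (fun c => (f c).lc)
  lcc : Rep n w.lcc (fun c => (f c).lcc)

/-! ### sizes -/

structure Sz (C : Cert) : Prop where
  A1 : 1 ≤ C.A
  A2 : C.A ≤ 1000
  U1 : 1 ≤ C.U
  U2 : C.U ≤ 1000
  m : C.hm < b24
  p : C.hp < b24

theorem Sz.of {C : Cert} (h : sizeOk C = true) : Sz C := by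
  simp only [sizeOk, Bool.and_eq_true] at h
  obtain ⟨⟨-, h1, h2⟩, ⟨h3, h4⟩, h5, h6⟩ := h
  have hb : b24 = 16777216 := rfl
  have h5' := Nat.le_of_ble_eq_true h5
  have h6' := Nat.le_of_ble_eq_true h6
  exact ⟨Nat.le_of_ble_eq_true h3, Nat.le_of_ble_eq_true h4, Nat.le_of_ble_eq_true h1,
    Nat.le_of_ble_eq_true h2, by omega, by omega⟩

theorem pad_eq (C : Cert) : pad C = 2 * C.A + 1 := rfl

theorem lt_eq (C : Cert) : lt C = 2 * C.U + 2 * pad C := rfl

theorem nl_eq (C : Cert) : nl C = 2 * (C.U + C.A) + 1 := rfl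

theorem o23_eq : o23 = 8388608 := rfl

/-- the number of the node or cell of the table entry `k` -/
def kN (C : Cert) (k : ℕ) : ℤ := (k : ℤ) - (C.U + pad C)

theorem kN_win {C : Cert} (ii c : ℕ) : kN C (ii + 1 + c) = eN C ii c := by
  unfold kN eN
  rw [pad_eq]
  push_cast
  ring

theorem kN_win' {C : Cert} (ii c : ℕ) : kN C (ii + c) = eN C ii c - 1 := by
  unfold kN eN
  rw [pad_eq]
  push_cast
  ring

theorem cell_rep {C : Cert} {x lo hi : ℕ} (hlo : lo < b24) (hhi : hi < b24) :
    Rep (lt C) (tbl (Nat.mul 2 C.U) (pad C) x lo hi) (fun k => cellF C.U x lo hi (kN C k)) := by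
  have h := tbl_rep (n := Nat.mul 2 C.U) (P := pad C) (x := x) hlo hhi
  have e : pad C + Nat.mul 2 C.U + pad C = lt C := by
    rw [lt_eq]
    show pad C + 2 * C.U + pad C = _
    ring
  rw [e] at h
  refine h.congr fun k _ => ?_
  have e2 : Nat.mul 2 C.U = 2 * C.U := rfl
  rw [e2]
  unfold tf cellF kN
  by_cases h1 : k < pad C
  · rw [if_pos h1, if_pos (by omega)]
  · by_cases h2 : k < pad C + 2 * C.U
    · have e3 : ¬ ((k : ℤ) - (C.U + pad C) < -C.U) := by omega
      have e4 : (k : ℤ) - (C.U + pad C) < C.U := by omega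
      rw [if_neg h1, if_pos h2, if_neg e3, if_pos e4]
      congr 1
      omega
    · have e3 : ¬ ((k : ℤ) - (C.U + pad C) < -C.U) := by omega
      have e4 : ¬ ((k : ℤ) - (C.U + pad C) < C.U) := by omega
      rw [if_neg h1, if_neg h2, if_neg e3, if_neg e4]

theorem mod_lt24 (a : ℕ) : Nat.mod a b24 < b24 := Nat.mod_lt a (by unfold b24; norm_num)

theorem psi_rep (C : Cert) :
    Rep (lt C + 1) (tbl (Nat.succ (Nat.mul 2 C.U)) (pad C) C.ps (Nat.mod C.ps b24)
      (Nat.mod (Nat.shiftRight C.ps (Nat.mul 24 (Nat.mul 2 C.U))) b24))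
      (fun k => psN C (kN C k)) := by
  have h := tbl_rep (n := Nat.succ (Nat.mul 2 C.U)) (P := pad C) (x := C.ps)
    (mod_lt24 C.ps) (mod_lt24 (Nat.shiftRight C.ps (Nat.mul 24 (Nat.mul 2 C.U))))
  have e : pad C + Nat.succ (Nat.mul 2 C.U) + pad C = lt C + 1 := by
    rw [lt_eq]
    show pad C + (2 * C.U + 1) + pad C = _
    ring
  rw [e] at h
  refine h.congr fun k _ => ?_
  have e2 : Nat.succ (Nat.mul 2 C.U) = 2 * C.U + 1 := rfl
  rw [e2]
  unfold tf psN kN
  by_cases h1 : k < pad C
  · rw [if_pos h1]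
    have e3 : (max 0 (min ((k : ℤ) - (C.U + pad C) + C.U) (2 * C.U))).toNat = 0 := by omega
    rw [e3]
    rfl
  · rw [if_neg h1]
    by_cases h2 : k < pad C + (2 * C.U + 1)
    · rw [if_pos h2]
      congr 1
      omega
    · rw [if_neg h2]
      have e3 : (max 0 (min ((k : ℤ) - (C.U + pad C) + C.U) (2 * C.U))).toNat = 2 * C.U := by
        omega
      rw [e3]
      rfl

theorem Rep.sub {L : ℕ} {v w : LV} {f g : ℕ → ℤ} (hv : Rep L v f) (hw : Rep L w g) :
    Rep L (sub (ones L) v w) (fun c => f c - g c) :=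
  (hv.add hw.neg).congr fun c _ => by ring

/-- the shift of the tables -/
def sh (C : Cert) : ℕ := C.U + pad C

theorem idx0 {C : Cert} {v : LV} {f : ℕ → ℤ} (hv : Rep (lt C) v f) (ho : 2 * v.o < B) :
    Rep (lt C) (LV.idx (lt C) (ones (lt C)) (Nat.add C.U (pad C)) (lt C) v)
      (fun k => kN C k * f k) := by
  refine (hv.idx ho le_rfl ?_).congr fun k _ => ?_
  · rw [lt_eq]; show C.U + pad C ≤ _; omega
  · unfold kN
    have : ((Nat.add C.U (pad C) : ℕ) : ℤ) = C.U + pad C := by
      show ((C.U + pad C : ℕ) : ℤ) = _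
      push_cast; rfl
    rw [this]

theorem idx1 {C : Cert} {v : LV} {f : ℕ → ℤ} (hv : Rep (lt C) v f) (ho : 2 * v.o < B) :
    Rep (lt C) (LV.idx (lt C) (ones (lt C)) (Nat.pred (Nat.add C.U (pad C))) (lt C) v)
      (fun k => (kN C k + 1) * f k) := by
  refine (hv.idx ho le_rfl ?_).congr fun k _ => ?_
  · rw [lt_eq]; show C.U + pad C - 1 ≤ _; omega
  · unfold kN
    have : ((Nat.pred (Nat.add C.U (pad C)) : ℕ) : ℤ) = C.U + pad C - 1 := by
      show ((C.U + pad C - 1 : ℕ) : ℤ) = _
      have := pad_eq C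
      omega
    rw [this]
    ring

theorem win0 {C : Cert} {v : LV} {f : ℤ → ℤ} {ii : ℕ} (hi : ii < 2 * C.A)
    (hv : Rep (lt C) v (fun k => f (kN C k))) (ho : 2 * v.o < B) :
    Rep (nl C) (LV.win (ii + 1) (nl C) v) (fun c => f (eN C ii c)) := by
  refine (hv.win ?_ ho).congr fun c _ => ?_
  · rw [nl_eq, lt_eq, pad_eq]; omega
  · rw [kN_win]

theorem win1 {C : Cert} {v : LV} {f : ℤ → ℤ} {ii : ℕ} (hi : ii < 2 * C.A)
    (hv : Rep (lt C) v (fun k => f (kN C k))) (ho : 2 * v.o < B) :
    Rep (nl C) (LV.win ii (nl C) v) (fun c => f (eN C ii c - 1)) := by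
  refine (hv.win ?_ ho).congr fun c _ => ?_
  · rw [nl_eq, lt_eq, pad_eq]; omega
  · rw [kN_win']

theorem one_rep (C : Cert) :
    Rep (lt C) ⟨Nat.add (ones (lt C)) (Nat.mul (Nat.pow 2 (Nat.mul 128 (Nat.add C.U (pad C))))
      (ones (Nat.add C.U (pad C)))), 1⟩ (fun k => if 0 ≤ kN C k then 1 else 0) := by
  refine Rep.of_digits (d := fun k => if k < C.U + pad C then 1 else 2) (fun c _ => ?_) ?_
    (fun c _ => ?_)
  · unfold kN
    by_cases h : c < C.U + pad C
    · rw [if_pos h, if_neg (by omega)]; rfl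
    · rw [if_neg h, if_pos (by omega)]; rfl
  · have e0 : Nat.add C.U (pad C) = C.U + pad C := rfl
    have e1 : Nat.pow 2 (Nat.mul 128 (C.U + pad C)) = B ^ (C.U + pad C) := by
      rw [B_eq, ← pow_mul]; rfl
    have e2 : lt C = (C.U + pad C) + (C.U + pad C) := by rw [lt_eq]; ring
    show ones (lt C) + Nat.pow 2 (Nat.mul 128 (C.U + pad C)) * ones (C.U + pad C) = _
    rw [e1, e2]
    generalize C.U + pad C = s
    rw [ones_eq, ones_eq, Finset.sum_range_add, Finset.sum_range_add, Finset.mul_sum,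
      Nat.add_assoc, ← Finset.sum_add_distrib]
    refine congrArg₂ (· + ·) ?_ ?_
    · refine Finset.sum_congr rfl fun k hk => ?_
      rw [if_pos (Finset.mem_range.1 hk), one_mul]
    · refine Finset.sum_congr rfl fun k hk => ?_
      rw [if_neg (by omega), pow_add]
      ring
  · show |if 0 ≤ kN C c then (1 : ℤ) else 0| ≤ ((1 : ℕ) : ℤ)
    split_ifs <;> simp

theorem lt_le {C : Cert} (h : Sz C) : lt C ≤ 6002 := by
  have h1 := h.A2
  have h2 := h.U2
  rw [lt_eq, pad_eq]; omega

theorem B_big : 2 ^ 100 < B := by rw [B_eq]; norm_num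

theorem kN_add (C : Cert) (k : ℕ) : kN C (1 + k) = kN C k + 1 := by
  unfold kN; push_cast; ring

/-- the differences of `psi` -/
def dz (C : Cert) (m : ℤ) : ℤ := psN C (m + 1) - psN C m

theorem dpsi_rep (C : Cert) :
    Rep (lt C) (sub (ones (lt C)) (LV.win 1 (lt C) (mkTab C).psi) (LV.win 0 (lt C) (mkTab C).psi))
      (fun k => dz C (kN C k)) := by
  have hB := B_big
  have bpsi : 2 * (mkTab C).psi.o < B := by
    show 2 * o23 < B
    rw [o23_eq]; omega
  have psi := psi_rep C
  refine ((psi.win (s := 1) (L := lt C) (by omega) bpsi).sub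
    (psi.win (s := 0) (L := lt C) (by omega) bpsi)).congr fun k _ => ?_
  rw [kN_add, Nat.zero_add]
  rfl

theorem pc_rep (C : Cert) : Rep (lt C) (mkTab C).C (fun k => pcN C (kN C k)) :=
  cell_rep (C := C) (x := C.pc) (by unfold o23 b24; norm_num) (by unfold o23 b24; norm_num)

theorem s3_rep (C : Cert) : Rep (lt C) (mkTab C).s3 (fun k => s3N C (kN C k)) :=
  cell_rep (C := C) (x := C.s3) (by unfold o23 b24; norm_num) (by unfold o23 b24; norm_num)

theorem D0_rep (C : Cert) :
    Rep (lt C) (mkTab C).D0 (fun k => (fun m => dz C m + pcN C m) (kN C k)) :=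
  (dpsi_rep C).add (pc_rep C)

theorem D1_rep (C : Cert) :
    Rep (lt C) (mkTab C).D1 (fun k => (fun m => dz C m - pcN C m) (kN C k)) :=
  (dpsi_rep C).sub (pc_rep C)

theorem mkWD_rep {C : Cert} (h : sizeOk C = true) {ii : ℕ} (hi : ii < 2 * C.A) (t : Bool) :
    RepWD (nl C) (mkWD (nl C) (mkTab C) ii t) (wdZ C ii t) := by
  have hz := Sz.of h
  have hT := lt_le hz
  have hB := B_big
  have hof : ∀ m : ℕ, m ≤ 2 ^ 60 → 2 * m < B := fun m hm => by omega
  have oT : ∀ m : ℕ, m ≤ 2 ^ 26 → 2 * (lt C * m) < B := by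
    intro m hm
    have : lt C * m ≤ 6002 * 2 ^ 26 := Nat.mul_le_mul hT hm
    omega
  have oTT : ∀ m : ℕ, m ≤ 2 ^ 26 → 2 * (lt C * (lt C * m)) < B := by
    intro m hm
    have : lt C * m ≤ 6002 * 2 ^ 26 := Nat.mul_le_mul hT hm
    have : lt C * (lt C * m) ≤ 6002 * (6002 * 2 ^ 26) := Nat.mul_le_mul hT this
    omega
  have o1 : 2 * o23 < B := by rw [o23_eq]; omega
  have o2 : 2 * (o23 + o23) < B := by rw [o23_eq]; omega
  have o3 : 2 * (o23 + o23 + o23) < B := by rw [o23_eq]; omega
  have o4 : 2 * (lt C * (o23 + o23 + o23)) < B := oT _ (by rw [o23_eq]; norm_num)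
  have o5 : 2 * (lt C * o23) < B := oT _ (by rw [o23_eq]; norm_num)
  have o6 : 2 * (lt C * (lt C * o23)) < B := oTT _ (by rw [o23_eq]; norm_num)
  have o7 : 2 * ((lt C + 1) * o23) < B := by
    have : (lt C + 1) * o23 ≤ 6003 * 2 ^ 26 :=
      Nat.mul_le_mul (by omega) (by rw [o23_eq]; norm_num)
    omega
  have psi := psi_rep C
  have psi_w := psi.win (s := ii + 1) (L := nl C) (by rw [nl_eq, lt_eq, pad_eq]; omega) o1
  have mpsi := psi.idx (s := C.U + pad C) (t := lt C + 1) o1 le_rfl (by rw [lt_eq]; omega)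
  have mpsi_w := mpsi.win (s := ii + 1) (L := nl C) (by rw [nl_eq, lt_eq, pad_eq]; omega) o7
  have D0 := D0_rep C
  have D1 := D1_rep C
  have pc := pc_rep C
  have hl : Rep (lt C) (mkTab C).hl (fun k => hlN C (kN C k)) := cell_rep hz.m hz.p
  have hr : Rep (lt C) (mkTab C).hr (fun k => hrN C (kN C k)) := cell_rep hz.m hz.p
  have dh : Rep (lt C) (mkTab C).dh (fun k => (fun m => hrN C m - hlN C m) (kN C k)) := hr.sub hl
  have s3 := s3_rep C
  have w1 := one_rep C
  have f1 : Rep (nl C) (mkWD (nl C) (mkTab C) ii t).p0 (fun c => psN C (eN C ii c)) :=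
    psi_w.congr fun c _ => by rw [kN_win]
  have f2 : Rep (nl C) (mkWD (nl C) (mkTab C) ii t).ep
      (fun c => eN C ii c * psN C (eN C ii c)) := by
    refine mpsi_w.congr fun c _ => ?_
    have e : (((ii + 1 + c : ℕ) : ℤ) - ((C.U + pad C : ℕ) : ℤ)) = kN C (ii + 1 + c) := by
      unfold kN; push_cast; rfl
    rw [e, kN_win]
  cases t
  · exact
    { p0 := f1
      ep := f2
      D := win0 (f := fun m => dz C m + pcN C m) hi D0 o3
      eD := win0 (f := fun m => m * (dz C m + pcN C m)) hi (idx0 D0 o3) o4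
      C := win0 (f := fun m => pcN C m) hi pc o1
      eC := win0 (f := fun m => m * pcN C m) hi (idx0 pc o1) o5
      h0 := win0 (f := fun m => hlN C m) hi hl o1
      h1 := win0 (f := fun m => hrN C m - hlN C m) hi dh o2
      w1 := win0 (f := fun m => if 0 ≤ m then 1 else 0) hi w1 (by show 2 * 1 < B; omega)
      s3 := win0 (f := fun m => s3N C m) hi s3 o1
      e1 := win0 (f := fun m => m * s3N C m) hi (idx0 s3 o1) o5
      e2 := (win0 (f := fun m => m * (m * s3N C m)) hi (idx0 (idx0 s3 o1) o5) o6).congr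
        fun c _ => by
          show _ = eN C ii c ^ 2 * s3N C (eN C ii c)
          ring }
  · have g : ∀ c, eN C ii c - 1 + 1 = eN C ii c := fun c => by ring
    exact
    { p0 := f1
      ep := f2
      D := win1 (f := fun m => dz C m - pcN C m) hi D1 o3
      eD := (win1 (f := fun m => (m + 1) * (dz C m - pcN C m)) hi (idx1 D1 o3) o4).congr
        fun c _ => by
          simp only [g]
          rfl
      C := win1 (f := fun m => pcN C m) hi pc o1
      eC := (win1 (f := fun m => (m + 1) * pcN C m) hi (idx1 pc o1) o5).congr fun c _ => by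
          simp only [g]
          rfl
      h0 := win1 (f := fun m => hrN C m) hi hr o1
      h1 := win1 (f := fun m => hrN C m - hlN C m) hi dh o2
      w1 := win1 (f := fun m => if 0 ≤ m then 1 else 0) hi w1 (by show 2 * 1 < B; omega)
      s3 := win1 (f := fun m => s3N C m) hi s3 o1
      e1 := (win1 (f := fun m => (m + 1) * s3N C m) hi (idx1 s3 o1) o5).congr fun c _ => by
          simp only [g]
          rfl
      e2 := (win1 (f := fun m => (m + 1) * ((m + 1) * s3N C m)) hi
          (idx1 (idx1 s3 o1) o5) o6).congr fun c _ => by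
          show _ = eN C ii c ^ 2 * s3N C (eN C ii c - 1)
          simp only [g]
          ring }

/-- for `G` and for `H` -/
theorem mkG_rep {C : Cert} (h : sizeOk C = true) {ii : ℕ} (hi : ii < 2 * C.A) (t : Bool)
    (x xa xs : ℕ) :
    RepGD (nl C) (mkG (nl C) (mkGTab C x xa xs) ii t) (gdZ C x xa xs ii t) := by
  have hz := Sz.of h
  have hT := lt_le hz
  have hB := B_big
  have oT : ∀ m : ℕ, m ≤ 2 ^ 26 → 2 * (lt C * m) < B := by
    intro m hm
    have : lt C * m ≤ 6002 * 2 ^ 26 := Nat.mul_le_mul hT hm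
    omega
  have o1 : 2 * o23 < B := by rw [o23_eq]; omega
  have o2 : 2 * (o23 + o23) < B := by rw [o23_eq]; omega
  have o5 : 2 * (lt C * o23) < B := oT _ (by rw [o23_eq]; norm_num)
  have o6 : 2 * (lt C * (o23 + o23)) < B := oT _ (by rw [o23_eq]; norm_num)
  have ho : o23 < b24 := by unfold o23 b24; norm_num
  have c0 := cell_rep (C := C) (x := x) ho ho
  have ca := cell_rep (C := C) (x := xa) ho ho
  have cs := cell_rep (C := C) (x := xs) ho ho
  have c1 := c0.add cs
  cases t
  · exact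
    { g0 := win0 (f := fun m => cellF C.U x o23 o23 m) hi c0 o1
      ga := win0 (f := fun m => cellF C.U xa o23 o23 m) hi ca o1
      gs := win0 (f := fun m => cellF C.U xs o23 o23 m) hi cs o1
      e0 := win0 (f := fun m => m * cellF C.U x o23 o23 m) hi (idx0 c0 o1) o5
      ea := win0 (f := fun m => m * cellF C.U xa o23 o23 m) hi (idx0 ca o1) o5
      es := win0 (f := fun m => m * cellF C.U xs o23 o23 m) hi (idx0 cs o1) o5 }
  · have g : ∀ c, eN C ii c - 1 + 1 = eN C ii c := fun c => by ring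
    exact
    { g0 := win1 (f := fun m => cellF C.U x o23 o23 m + cellF C.U xs o23 o23 m) hi c1 o2
      ga := win1 (f := fun m => cellF C.U xa o23 o23 m) hi ca o1
      gs := win1 (f := fun m => cellF C.U xs o23 o23 m) hi cs o1
      e0 := (win1 (f := fun m => (m + 1) * (cellF C.U x o23 o23 m + cellF C.U xs o23 o23 m)) hi
          (idx1 c1 o2) o6).congr fun c _ => by
          simp only [g]
          rfl
      ea := (win1 (f := fun m => (m + 1) * cellF C.U xa o23 o23 m) hi
          (idx1 ca o1) o5).congr fun c _ => by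
          simp only [g]
          rfl
      es := (win1 (f := fun m => (m + 1) * cellF C.U xs o23 o23 m) hi
          (idx1 cs o1) o5).congr fun c _ => by
          simp only [g]
          rfl }

theorem mkV_rep {C : Cert} (h : sizeOk C = true) (p : Par) :
    RepCV (nl C) (mkCtx C p).V (fun c => ⟨1, (c : ℤ) - (C.U + C.A), ((c : ℤ) - (C.U + C.A)) ^ 2⟩) := by
  have hz := Sz.of h
  have h1 := hz.A2
  have h2 := hz.U2
  have hB := B_big
  have l1 : Rep (nl C) ⟨Nat.mul 2 (ones (nl C)), 1⟩ (fun _ => 1) := by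
    refine Rep.of_digits (d := fun _ => 2) (fun c _ => rfl) ?_ (fun c _ => ?_)
    · show 2 * ones (nl C) = _
      rw [ones_eq, Finset.mul_sum]
    · show |(1 : ℤ)| ≤ ((1 : ℕ) : ℤ)
      simp
  have e : ((Nat.add C.U C.A : ℕ) : ℤ) = C.U + C.A := by
    show ((C.U + C.A : ℕ) : ℤ) = _
    push_cast; rfl
  have hY : Nat.add C.U C.A ≤ nl C := by
    rw [nl_eq]; show C.U + C.A ≤ _; omega
  have lc := l1.idx (s := Nat.add C.U C.A) (t := nl C) (by show 2 * 1 < B; omega) le_rfl hY
  have lcc := lc.idx (s := Nat.add C.U C.A) (t := nl C)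
    (by
      show 2 * (nl C * 1) < B
      rw [nl_eq]; omega) le_rfl hY
  exact
  { l1 := l1
    lc := lc.congr fun c _ => by
      rw [e, mul_one]
    lcc := lcc.congr fun c _ => by
      rw [e]
      show _ = ((c : ℤ) - (C.U + C.A)) ^ 2
      ring }

end Pool.Agent.MMSChk
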