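import Pool.Agent.MMSChk.Cell

/-!
# From lanes to integers
-/

set_option autoImplicit false

namespace Pool.Agent.MMSChk

variable {n : ℕ}

theorem Rep.dbl {v : LV} {f : ℕ → ℤ} (h : Rep n v f) :
    Rep n (LV.smul 2 v) (fun c => 2 * f c) := Rep.smul 2 h

theorem Rep.tpl {v : LV} {f : ℕ → ℤ} (h : Rep n v f) :
    Rep n (LV.smul 3 v) (fun c => 3 * f c) := Rep.smul 3 h

structure RepP (n : ℕ) (P : P20 LV) (f : ℕ → P20 ℤ) : Prop where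
  c0 : Rep n P.c0 (fun c => (f c).c0)
  cx : Rep n P.cx (fun c => (f c).cx)
  cy : Rep n P.cy (fun c => (f c).cy)
  cz : Rep n P.cz (fun c => (f c).cz)
  cxx : Rep n P.cxx (fun c => (f c).cxx)
  cxy : Rep n P.cxy (fun c => (f c).cxy)
  cxz : Rep n P.cxz (fun c => (f c).cxz)
  cyy : Rep n P.cyy (fun c => (f c).cyy)
  cyz : Rep n P.cyz (fun c => (f c).cyz)
  czz : Rep n P.czz (fun c => (f c).czz)
  cxxx : Rep n P.cxxx (fun c => (f c).cxxx)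
  cxxy : Rep n P.cxxy (fun c => (f c).cxxy)
  cxxz : Rep n P.cxxz (fun c => (f c).cxxz)
  cxyy : Rep n P.cxyy (fun c => (f c).cxyy)
  cxyz : Rep n P.cxyz (fun c => (f c).cxyz)
  cxzz : Rep n P.cxzz (fun c => (f c).cxzz)
  cyyy : Rep n P.cyyy (fun c => (f c).cyyy)
  cyyz : Rep n P.cyyz (fun c => (f c).cyyz)
  cyzz : Rep n P.cyzz (fun c => (f c).cyzz)
  czzz : Rep n P.czzz (fun c => (f c).czzz)

theorem gpart_rep {p q j : Z} {g : GD LV} {f : ℕ → GD ℤ} (hg : RepGD n g f) :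
    RepP n (gpart (lvOps (ones n)) p q j g) (fun c => gpart intOps p q j (f c)) where
  c0 := (Rep.add (Rep.smulZ _ hg.g0) (Rep.smulZ _ hg.e0))
  cx := (Rep.add (Rep.smulZ _ hg.ga) (Rep.smulZ _ hg.ea))
  cy := (Rep.smulZ _ hg.g0)
  cz := (Rep.add (Rep.smulZ _ (Rep.add hg.g0 hg.es)) (Rep.smulZ _ hg.gs))
  cxx := Rep.zero
  cxy := (Rep.smulZ _ hg.ga)
  cxz := (Rep.smulZ _ hg.ga)
  cyy := Rep.zero
  cyz := (Rep.smulZ _ hg.gs)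
  czz := (Rep.smulZ _ hg.gs)
  cxxx := Rep.zero
  cxxy := Rep.zero
  cxxz := Rep.zero
  cxyy := Rep.zero
  cxyz := Rep.zero
  cxzz := Rep.zero
  cyyy := Rep.zero
  cyyz := Rep.zero
  cyzz := Rep.zero
  czzz := Rep.zero

theorem mulx_rep {i : Z} {g : P20 LV} {f : ℕ → P20 ℤ} (hg : RepP n g f) :
    RepP n (mulx (lvOps (ones n)) i g) (fun c => mulx intOps i (f c)) where
  c0 := (Rep.smulZ _ hg.c0)
  cx := (Rep.add hg.c0 (Rep.smulZ _ hg.cx))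
  cy := (Rep.smulZ _ hg.cy)
  cz := (Rep.smulZ _ hg.cz)
  cxx := hg.cx
  cxy := (Rep.add hg.cy (Rep.smulZ _ hg.cxy))
  cxz := (Rep.add hg.cz (Rep.smulZ _ hg.cxz))
  cyy := Rep.zero
  cyz := (Rep.smulZ _ hg.cyz)
  czz := (Rep.smulZ _ hg.czz)
  cxxx := Rep.zero
  cxxy := hg.cxy
  cxxz := hg.cxz
  cxyy := Rep.zero
  cxyz := hg.cyz
  cxzz := hg.czz
  cyyy := Rep.zero
  cyyz := Rep.zero
  cyzz := Rep.zero
  czzz := Rep.zero

theorem swapXY_rep {p : P20 LV} {f : ℕ → P20 ℤ} (hp : RepP n p f) :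
    RepP n (swapXY p) (fun c => swapXY (f c)) where
  c0 := hp.c0
  cx := hp.cy
  cy := hp.cx
  cz := hp.cz
  cxx := hp.cyy
  cxy := hp.cxy
  cxz := hp.cyz
  cyy := hp.cxx
  cyz := hp.cxz
  czz := hp.czz
  cxxx := hp.cyyy
  cxxy := hp.cxyy
  cxxz := hp.cyyz
  cxyy := hp.cxxy
  cxyz := hp.cxyz
  cxzz := hp.cyzz
  cyyy := hp.cxxx
  cyyz := hp.cxxz
  cyzz := hp.cxzz
  czzz := hp.czzz

theorem swapYZ_rep {p : P20 LV} {f : ℕ → P20 ℤ} (hp : RepP n p f) :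
    RepP n (swapYZ p) (fun c => swapYZ (f c)) where
  c0 := hp.c0
  cx := hp.cx
  cy := hp.cz
  cz := hp.cy
  cxx := hp.cxx
  cxy := hp.cxz
  cxz := hp.cxy
  cyy := hp.czz
  cyz := hp.cyz
  czz := hp.cyy
  cxxx := hp.cxxx
  cxxy := hp.cxxz
  cxxz := hp.cxxy
  cxyy := hp.cxzz
  cxyz := hp.cxyz
  cxzz := hp.cxyy
  cyyy := hp.czzz
  cyyz := hp.cyzz
  cyzz := hp.cyyz
  czzz := hp.cyyy

theorem padd_rep {p q : P20 LV} {f g : ℕ → P20 ℤ} (hp : RepP n p f) (hq : RepP n q g) :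
    RepP n (padd (lvOps (ones n)) p q) (fun c => padd intOps (f c) (g c)) where
  c0 := Rep.add hp.c0 hq.c0
  cx := Rep.add hp.cx hq.cx
  cy := Rep.add hp.cy hq.cy
  cz := Rep.add hp.cz hq.cz
  cxx := Rep.add hp.cxx hq.cxx
  cxy := Rep.add hp.cxy hq.cxy
  cxz := Rep.add hp.cxz hq.cxz
  cyy := Rep.add hp.cyy hq.cyy
  cyz := Rep.add hp.cyz hq.cyz
  czz := Rep.add hp.czz hq.czz
  cxxx := Rep.add hp.cxxx hq.cxxx
  cxxy := Rep.add hp.cxxy hq.cxxy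
  cxxz := Rep.add hp.cxxz hq.cxxz
  cxyy := Rep.add hp.cxyy hq.cxyy
  cxyz := Rep.add hp.cxyz hq.cxyz
  cxzz := Rep.add hp.cxzz hq.cxzz
  cyyy := Rep.add hp.cyyy hq.cyyy
  cyyz := Rep.add hp.cyyz hq.cyyz
  cyzz := Rep.add hp.cyzz hq.cyzz
  czzz := Rep.add hp.czzz hq.czzz

theorem psub_rep {p : P20 LV} {f : ℕ → P20 ℤ} (hp : RepP n p f) :
    RepP n (psub (lvOps (ones n)) p) (fun c => psub intOps (f c)) where
  c0 := hp.c0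
  cx := (Rep.add hp.cx hp.cz)
  cy := hp.cy
  cz := (Rep.neg hp.cz)
  cxx := (Rep.add (Rep.add hp.cxx hp.cxz) hp.czz)
  cxy := (Rep.add hp.cxy hp.cyz)
  cxz := (Rep.neg (Rep.add hp.cxz (Rep.dbl hp.czz)))
  cyy := hp.cyy
  cyz := (Rep.neg hp.cyz)
  czz := hp.czz
  cxxx := (Rep.add (Rep.add hp.cxxx hp.cxxz) (Rep.add hp.cxzz hp.czzz))
  cxxy := (Rep.add (Rep.add hp.cxxy hp.cxyz) hp.cyzz)
  cxxz := (Rep.neg (Rep.add (Rep.add hp.cxxz (Rep.dbl hp.cxzz)) (Rep.tpl hp.czzz)))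
  cxyy := (Rep.add hp.cxyy hp.cyyz)
  cxyz := (Rep.neg (Rep.add hp.cxyz (Rep.dbl hp.cyzz)))
  cxzz := (Rep.add hp.cxzz (Rep.tpl hp.czzz))
  cyyy := hp.cyyy
  cyyz := (Rep.neg hp.cyyz)
  cyzz := hp.cyzz
  czzz := (Rep.neg hp.czzz)

theorem upart_rep {p : Par} {Q i j : Z} {r s : ARow} {w : WD LV} {f : ℕ → WD ℤ}
    (hw : RepWD n w f) :
    RepP n (upart (lvOps (ones n)) p Q i j r s w) (fun c => upart intOps p Q i j r s (f c)) where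
  c0 := (Rep.add (Rep.add (Rep.add (Rep.smulZ _ hw.ep) (Rep.smulZ _ hw.p0)) (Rep.smulZ _ hw.s3)) (Rep.add (Rep.add (Rep.smulZ _ hw.e2) (Rep.smulZ _ hw.h0)) (Rep.smulZ _ hw.w1)))
  cx := (Rep.add (Rep.add (Rep.smulZ _ hw.p0) (Rep.smulZ _ hw.s3)) (Rep.add (Rep.smulZ _ hw.h0) (Rep.smulZ _ hw.w1)))
  cy := (Rep.add (Rep.add (Rep.smulZ _ hw.p0) (Rep.smulZ _ hw.s3)) (Rep.add (Rep.smulZ _ hw.h0) (Rep.smulZ _ hw.w1)))
  cz := (Rep.add (Rep.add (Rep.smulZ _ (Rep.add hw.p0 hw.eD)) (Rep.smulZ _ hw.D)) (Rep.add (Rep.smulZ _ hw.e1) (Rep.smulZ _ hw.h1)))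
  cxx := (Rep.add (Rep.smulZ _ hw.h0) (Rep.smulZ _ hw.w1))
  cxy := (Rep.smulZ _ hw.s3)
  cxz := (Rep.add (Rep.smulZ _ hw.D) (Rep.smulZ _ hw.h1))
  cyy := (Rep.add (Rep.smulZ _ hw.h0) (Rep.smulZ _ hw.w1))
  cyz := (Rep.add (Rep.smulZ _ hw.D) (Rep.smulZ _ hw.h1))
  czz := (Rep.add (Rep.add (Rep.smulZ _ (Rep.add hw.D (Rep.neg hw.eC))) (Rep.smulZ _ hw.C)) (Rep.smulZ _ hw.s3))
  cxxx := (Rep.smulZ _ hw.w1)
  cxxy := Rep.zero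
  cxxz := (Rep.smulZ _ hw.h1)
  cxyy := Rep.zero
  cxyz := Rep.zero
  cxzz := (Rep.smulZ _ hw.C)
  cyyy := (Rep.smulZ _ hw.w1)
  cyyz := (Rep.smulZ _ hw.h1)
  cyzz := (Rep.smulZ _ hw.C)
  czzz := (Rep.smulZ _ hw.C)

theorem cond_rep {b : Bool} {p q : P20 LV} {f g : ℕ → P20 ℤ} (hp : RepP n p f)
    (hq : RepP n q g) : RepP n (cond b p q) (fun c => cond b (f c) (g c)) := by
  cases b
  · exact hq
  · exact hp

theorem ufull_rep {p : Par} {Q i j : Z} {I J : Bool} {r s : ARow} {w : WD LV} {f : ℕ → WD ℤ}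
    {g h : GD LV} {fg fh : ℕ → GD ℤ} (hw : RepWD n w f) (hg : RepGD n g fg) (hh : RepGD n h fh) :
    RepP n (ufull (lvOps (ones n)) p Q i j I J r s w g h)
      (fun c => ufull intOps p Q i j I J r s (f c) (fg c) (fh c)) :=
  padd_rep (upart_rep hw) (padd_rep (cond_rep (mulx_rep (gpart_rep hg)) (gpart_rep hg))
    (swapXY_rep (cond_rep (mulx_rep (gpart_rep hh)) (gpart_rep hh))))

theorem rasm_rep {v : CV LV} {f : ℕ → CV ℤ} {r s : RZ} (hv : RepCV n v f) :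
    RepP n (rasm (lvOps (ones n)) v r s) (fun c => rasm intOps (f c) r s) where
  c0 := (Rep.add (Rep.add (Rep.smulZ _ hv.l1) (Rep.smulZ _ hv.lc)) (Rep.smulZ _ hv.lcc))
  cx := (Rep.add (Rep.smulZ _ hv.l1) (Rep.smulZ _ hv.lc))
  cy := (Rep.add (Rep.smulZ _ hv.l1) (Rep.smulZ _ hv.lc))
  cz := (Rep.add (Rep.smulZ _ hv.l1) (Rep.smulZ _ hv.lc))
  cxx := (Rep.add (Rep.smulZ _ hv.l1) (Rep.smulZ _ hv.lc))
  cxy := (Rep.smulZ _ hv.l1)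
  cxz := (Rep.smulZ _ hv.l1)
  cyy := (Rep.add (Rep.smulZ _ hv.l1) (Rep.smulZ _ hv.lc))
  cyz := (Rep.smulZ _ hv.l1)
  czz := (Rep.smulZ _ hv.l1)
  cxxx := (Rep.smulZ _ hv.l1)
  cxxy := Rep.zero
  cxxz := (Rep.smulZ _ hv.l1)
  cxyy := Rep.zero
  cxyz := Rep.zero
  cxzz := Rep.zero
  cyyy := (Rep.smulZ _ hv.l1)
  cyyz := (Rep.smulZ _ hv.l1)
  cyzz := Rep.zero
  czzz := Rep.zero

theorem pasm_rep {u v r : P20 LV} {f g h : ℕ → P20 ℤ} (hu : RepP n u f) (hv : RepP n v g)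
    (hr : RepP n r h) :
    RepP n (pasm (lvOps (ones n)) u v r) (fun c => pasm intOps (f c) (g c) (h c)) :=
  padd_rep (padd_rep (psub_rep hu) (swapXY_rep (psub_rep hv))) hr

theorem bern_rep {p : P20 LV} {f : ℕ → P20 ℤ} (hp : RepP n p f) :
    RepP n (bern (lvOps (ones n)) p) (fun c => bern intOps (f c)) := by
  have a30 := hp.c0
  have a21 := (Rep.add (Rep.tpl hp.c0) hp.cx)
  have a12 := (Rep.add (Rep.add (Rep.tpl hp.c0) (Rep.dbl hp.cx)) hp.cxx)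
  have a03 := (Rep.add (Rep.add hp.c0 hp.cx) (Rep.add hp.cxx hp.cxxx))
  have y20 := hp.cy
  have y11 := (Rep.add (Rep.dbl hp.cy) hp.cxy)
  have y02 := (Rep.add (Rep.add hp.cy hp.cxy) hp.cxxy)
  have z20 := hp.cz
  have z11 := (Rep.add (Rep.dbl hp.cz) hp.cxz)
  have z02 := (Rep.add (Rep.add hp.cz hp.cxz) hp.cxxz)
  have yy1 := hp.cyy
  have yy0 := (Rep.add hp.cyy hp.cxyy)
  have yz1 := hp.cyz
  have yz0 := (Rep.add hp.cyz hp.cxyz)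
  have zz1 := hp.czz
  have zz0 := (Rep.add hp.czz hp.cxzz)
  have b2_1 := a21
  have b2_y := (Rep.add a21 y20)
  have b2_z := z20
  have b1_2 := a12
  have b1_1y := (Rep.add (Rep.dbl a12) y11)
  have b1_yy := (Rep.add (Rep.add a12 y11) yy1)
  have b1_1z := z11
  have b1_yz := (Rep.add z11 yz1)
  have b1_zz := zz1
  have b0_3 := a03
  have b0_2y := (Rep.add (Rep.tpl a03) y02)
  have b0_1yy := (Rep.add (Rep.add (Rep.tpl a03) (Rep.dbl y02)) yy0)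
  have b0_yyy := (Rep.add (Rep.add a03 y02) (Rep.add yy0 hp.cyyy))
  have b0_2z := z02
  have b0_1yz := (Rep.add (Rep.dbl z02) yz0)
  have b0_yyz := (Rep.add (Rep.add z02 yz0) hp.cyyz)
  have b0_1zz := zz0
  have b0_yzz := (Rep.add zz0 hp.cyzz)
  have b0_zzz := hp.czzz
  exact
  { c0 := a30
    cx := b2_1
    cy := b2_y
    cz := (Rep.add b2_y b2_z)
    cxx := b1_2
    cxy := b1_1y
    cxz := (Rep.add b1_1y b1_1z)
    cyy := b1_yy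
    cyz := (Rep.add (Rep.dbl b1_yy) b1_yz)
    czz := (Rep.add (Rep.add b1_yy b1_yz) b1_zz)
    cxxx := b0_3
    cxxy := b0_2y
    cxxz := (Rep.add b0_2y b0_2z)
    cxyy := b0_1yy
    cxyz := (Rep.add (Rep.dbl b0_1yy) b0_1yz)
    cxzz := (Rep.add (Rep.add b0_1yy b0_1yz) b0_1zz)
    cyyy := b0_yyy
    cyyz := (Rep.add (Rep.tpl b0_yyy) b0_yyz)
    cyzz := (Rep.add (Rep.add (Rep.tpl b0_yyy) (Rep.dbl b0_yyz)) b0_yzz)
    czzz := (Rep.add (Rep.add b0_yyy b0_yyz) (Rep.add b0_yzz b0_zzz)) }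

theorem okP_rep {p : P20 LV} {f : ℕ → P20 ℤ} (hp : RepP n p f)
    (h : okP (ones n) (Nat.mul 170141183460469231731687303715884105728 (ones n)) p = true) :
    ∀ c < n, (f c).Nonneg := by
  unfold okP at h
  simp only [Bool.and_eq_true] at h
  obtain ⟨⟨⟨⟨h1, h2⟩, h3, h4⟩, ⟨⟨h5, h6⟩, h7⟩, ⟨h8, h9⟩, h10⟩,
    ⟨⟨⟨h11, h12⟩, h13⟩, ⟨h14, h15⟩, h16⟩, ⟨h17, h18⟩, h19, h20⟩ := h
  intro c hc
  exact
  { c0 := hp.c0.of_ok h1 c hc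
    cx := hp.cx.of_ok h2 c hc
    cy := hp.cy.of_ok h3 c hc
    cz := hp.cz.of_ok h4 c hc
    cxx := hp.cxx.of_ok h5 c hc
    cxy := hp.cxy.of_ok h6 c hc
    cxz := hp.cxz.of_ok h7 c hc
    cyy := hp.cyy.of_ok h8 c hc
    cyz := hp.cyz.of_ok h9 c hc
    czz := hp.czz.of_ok h10 c hc
    cxxx := hp.cxxx.of_ok h11 c hc
    cxxy := hp.cxxy.of_ok h12 c hc
    cxxz := hp.cxxz.of_ok h13 c hc
    cxyy := hp.cxyy.of_ok h14 c hc
    cxyz := hp.cxyz.of_ok h15 c hc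
    cxzz := hp.cxzz.of_ok h16 c hc
    cyyy := hp.cyyy.of_ok h17 c hc
    cyyz := hp.cyyz.of_ok h18 c hc
    cyzz := hp.cyzz.of_ok h19 c hc
    czzz := hp.czzz.of_ok h20 c hc }

end Pool.Agent.MMSChk
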